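import Pool.Agent.H89.RSL.Defs

set_option autoImplicit false

namespace Pool.Agent.H89.RSL

open Finset

variable {α β : Type*}

theorem Emb.mono {H : SimpleGraph α} {Γ : SimpleGraph β} {W : Finset α} {U U' : Finset β}
    (h : Emb H Γ W U) (hU : U ⊆ U') : Emb H Γ W U' := by
  obtain ⟨f, h1, h2, h3⟩ := h
  exact ⟨f, fun a ha => hU (h1 a ha), h2, h3⟩

lemma dg_mono {Γ : SimpleGraph β} {x : β} {A B : Finset β} (h : A ⊆ B) : dg Γ x A ≤ dg Γ x B := by
  classical
  unfold dg
  exact Finset.card_le_card (Finset.filter_subset_filter _ h)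

theorem ext_one {H : SimpleGraph α} {Γ : SimpleGraph β} {W : Finset α} {U : Finset β}
    [DecidableEq α] (v : α) (hv : v ∉ W) (h : Emb H Γ W U) (D Δ : ℕ)
    (hD : dg H v (insert v W) ≤ D)
    (hΔ : ∀ y ∈ U, dg Γ y U ≤ Δ) (hc : D * Δ + (W.card + 1) ≤ U.card) :
    Emb H Γ (insert v W) U := by
  classical
  obtain ⟨f, h1, h2, h3⟩ := h
  -- the blocked vertices
  set B : Finset β := W.image f ∪
    (W.filter (fun w => H.Adj v w)).biUnion (fun w => U.filter (fun y => Γ.Adj (f w) y)) with hB
  have hBc : B.card ≤ W.card + D * Δ := by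
    refine (Finset.card_union_le _ _).trans (add_le_add Finset.card_image_le ?_)
    refine (Finset.card_biUnion_le_card_mul _ _ Δ ?_).trans ?_
    · intro w hw
      rw [Finset.mem_filter] at hw
      have := hΔ (f w) (h1 w hw.1)
      unfold dg at this
      convert this
    · apply Nat.mul_le_mul_right
      refine le_trans ?_ hD
      unfold dg
      apply Finset.card_le_card
      intro w hw
      rw [Finset.mem_filter] at hw ⊢
      exact ⟨Finset.mem_insert_of_mem hw.1, hw.2⟩
  have hlt : B.card < U.card := by omega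
  obtain ⟨y, hyU, hyB⟩ := Finset.exists_mem_notMem_of_card_lt_card hlt
  have hy1 : ∀ w ∈ W, f w ≠ y := by
    intro w hw he
    exact hyB (Finset.mem_union_left _ (Finset.mem_image.mpr ⟨w, hw, he⟩))
  have hy2 : ∀ w ∈ W, H.Adj v w → ¬ Γ.Adj (f w) y := by
    intro w hw hvw hadj
    apply hyB
    apply Finset.mem_union_right
    rw [Finset.mem_biUnion]
    exact ⟨w, Finset.mem_filter.mpr ⟨hw, hvw⟩, Finset.mem_filter.mpr ⟨hyU, hadj⟩⟩
  have hne : ∀ w ∈ W, w ≠ v := fun w hw he => hv (he ▸ hw)
  refine ⟨Function.update f v y, ?_, ?_, ?_⟩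
  · intro a ha
    rcases Finset.mem_insert.mp ha with rfl | ha
    · rw [Function.update_self]; exact hyU
    · rw [Function.update_of_ne (hne a ha)]; exact h1 a ha
  · intro a ha b hb hab
    rw [Finset.mem_coe, Finset.mem_insert] at ha hb
    rcases ha with rfl | ha <;> rcases hb with rfl | hb
    · rfl
    · rw [Function.update_self, Function.update_of_ne (hne b hb)] at hab
      exact absurd hab.symm (hy1 b hb)
    · rw [Function.update_self, Function.update_of_ne (hne a ha)] at hab
      exact absurd hab (hy1 a ha)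
    · rw [Function.update_of_ne (hne a ha), Function.update_of_ne (hne b hb)] at hab
      exact h2 ha hb hab
  · intro a ha b hb hab
    rw [Finset.mem_insert] at ha hb
    rcases ha with rfl | ha <;> rcases hb with rfl | hb
    · exact absurd hab (H.loopless.irrefl _)
    · rw [Function.update_self, Function.update_of_ne (hne b hb)]
      exact fun hc => hy2 b hb hab hc.symm
    · rw [Function.update_self, Function.update_of_ne (hne a ha)]
      exact hy2 a ha hab.symm
    · rw [Function.update_of_ne (hne a ha), Function.update_of_ne (hne b hb)]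
      exact h3 a ha b hb hab

theorem ext_emb {H : SimpleGraph α} {Γ : SimpleGraph β} {W W' : Finset α} {U : Finset β}
    (hW : W ⊆ W') (h : Emb H Γ W U) (D Δ : ℕ) (hD : ∀ v ∈ W', v ∉ W → dg H v W' ≤ D)
    (hΔ : ∀ y ∈ U, dg Γ y U ≤ Δ) (hc : D * Δ + W'.card ≤ U.card) : Emb H Γ W' U := by
  classical
  -- induction on the part added
  have key : ∀ X : Finset α, X ⊆ W' → (∀ v ∈ X, v ∉ W) → Emb H Γ (W ∪ X) U := by
    intro X
    induction X using Finset.induction_on with
    | empty =>
      intro _ _
      rw [Finset.union_empty]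
      exact h
    | insert v X hvX ih =>
      intro hX hXW
      have ihX := ih ((Finset.subset_insert _ _).trans hX)
        (fun w hw => hXW w (Finset.mem_insert_of_mem hw))
      have hvW : v ∉ W := hXW v (Finset.mem_insert_self _ _)
      have hvW' : v ∈ W' := hX (Finset.mem_insert_self _ _)
      have hvU : v ∉ W ∪ X := by
        rw [Finset.mem_union]
        exact fun hh => hh.elim hvW hvX
      have hsub : insert v (W ∪ X) ⊆ W' := by
        apply Finset.insert_subset hvW'
        exact Finset.union_subset hW ((Finset.subset_insert _ _).trans hX)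
      have hcard : (W ∪ X).card + 1 ≤ W'.card := by
        rw [← Finset.card_insert_of_notMem hvU]
        exact Finset.card_le_card hsub
      have := ext_one v hvU ihX D Δ ((dg_mono hsub).trans (hD v hvW' hvW)) hΔ (by omega)
      rwa [Finset.union_insert]
  have := key (W' \ W) (Finset.sdiff_subset) (fun v hv => (Finset.mem_sdiff.mp hv).2)
  rwa [Finset.union_sdiff_of_subset hW] at this

theorem emb_empty [Nonempty β] {H : SimpleGraph α} {Γ : SimpleGraph β} {U : Finset β} :
    Emb H Γ ∅ U := by
  refine ⟨fun _ => Classical.arbitrary β, ?_, ?_, ?_⟩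
  · intro a ha
    exact absurd ha (Finset.notMem_empty _)
  · intro a ha
    simp at ha
  · intro a ha
    exact absurd ha (Finset.notMem_empty _)

theorem deg_emb [Nonempty β] {H : SimpleGraph α} {Γ : SimpleGraph β} {W : Finset α} {U : Finset β}
    (d Δ : ℕ) (hd : ∀ S ⊆ W, S.Nonempty → ∃ v ∈ S, dg H v S ≤ d)
    (hΔ : ∀ y ∈ U, dg Γ y U ≤ Δ) (hc : d * Δ + W.card ≤ U.card) : Emb H Γ W U := by
  classical
  have key : ∀ n : ℕ, ∀ S ⊆ W, S.card = n → Emb H Γ S U := by
    intro n
    induction n with
    | zero =>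
      intro S _ hS
      rw [Finset.card_eq_zero] at hS
      rw [hS]
      exact emb_empty
    | succ n ih =>
      intro S hSW hS
      have hne : S.Nonempty := Finset.card_pos.mp (by omega)
      obtain ⟨v, hv, hdv⟩ := hd S hSW hne
      have h1 := ih (S.erase v) ((Finset.erase_subset _ _).trans hSW) (by
        rw [Finset.card_erase_of_mem hv, hS]; rfl)
      have h2 := ext_one v (Finset.notMem_erase v S) h1 d Δ (by
        rw [Finset.insert_erase hv]; exact hdv) hΔ (by
        have : (S.erase v).card + 1 = S.card := Finset.card_erase_add_one hv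
        have := Finset.card_le_card hSW
        omega)
      rwa [Finset.insert_erase hv] at h2
  exact key W.card W (Finset.Subset.refl _) rfl

theorem indep_emb [Nonempty β] {H : SimpleGraph α} {Γ : SimpleGraph β} {W : Finset α}
    {I : Finset β} (hI : Indep Γ I) (hc : W.card ≤ I.card) : Emb H Γ W I := by
  classical
  apply deg_emb W.card 0
  · intro S hS hne
    obtain ⟨v, hv⟩ := hne
    refine ⟨v, hv, ?_⟩
    unfold dg
    exact (Finset.card_filter_le _ _).trans (Finset.card_le_card hS)
  · intro y hy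
    unfold dg
    rw [Nat.le_zero, Finset.card_eq_zero, Finset.filter_eq_empty_iff]
    intro z hz
    exact hI y hy z hz
  · simpa using hc

/-- the handshake bound -/
lemma sum_dg_le {p : ℕ} (H : SimpleGraph (Fin p)) (m : ℕ) (hm : H.edgeSet.ncard ≤ m)
    (S : Finset (Fin p)) : ∑ v ∈ S, dg H v univ ≤ 2 * m := by
  classical
  have h1 : ∑ v ∈ S, dg H v univ ≤ ∑ v : Fin p, dg H v univ :=
    Finset.sum_le_sum_of_subset (Finset.subset_univ _)
  have h2 : ∑ v : Fin p, dg H v univ = ∑ v : Fin p, H.degree v := by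
    apply Finset.sum_congr rfl
    intro v _
    unfold dg
    rw [← SimpleGraph.card_neighborFinset_eq_degree]
    congr 1
    ext w
    simp
  rw [h2, SimpleGraph.sum_degrees_eq_twice_card_edges] at h1
  have h3 : H.edgeFinset.card = H.edgeSet.ncard := by
    rw [Set.ncard_eq_toFinset_card' H.edgeSet]
    rfl
  omega

theorem edges_degenerate {p : ℕ} (H : SimpleGraph (Fin p)) (m d : ℕ) (hm : H.edgeSet.ncard ≤ m)
    (hd : 2 * m < (d + 1) ^ 2) (S : Finset (Fin p)) (hS : S.Nonempty) :
    ∃ v ∈ S, dg H v S ≤ d := by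
  classical
  by_contra hcon
  push Not at hcon
  have h1 : ∑ v ∈ S, (d + 1) ≤ ∑ v ∈ S, dg H v univ := by
    apply Finset.sum_le_sum
    intro v hv
    exact (hcon v hv).trans_le (dg_mono (Finset.subset_univ _)) |> Nat.succ_le_of_lt
  rw [Finset.sum_const, smul_eq_mul] at h1
  have h2 := sum_dg_le H m hm S
  obtain ⟨v, hv⟩ := hS
  have h3 : d + 1 ≤ S.card := by
    have h4 := hcon v hv
    have h5 : dg H v S < S.card := by
      unfold dg
      apply Finset.card_lt_card
      rw [Finset.ssubset_iff_of_subset (Finset.filter_subset _ _)]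
      refine ⟨v, hv, ?_⟩
      simp
    omega
  have : (d + 1) * (d + 1) ≤ S.card * (d + 1) := Nat.mul_le_mul_right _ h3
  nlinarith

theorem card_high {p : ℕ} (H : SimpleGraph (Fin p)) (m D : ℕ) (hm : H.edgeSet.ncard ≤ m)
    (W : Finset (Fin p)) (hW : ∀ v ∈ W, D ≤ dg H v univ) : D * W.card ≤ 2 * m := by
  have h1 : ∑ v ∈ W, D ≤ ∑ v ∈ W, dg H v univ := Finset.sum_le_sum hW
  rw [Finset.sum_const, smul_eq_mul] at h1
  have h2 := sum_dg_le H m hm W
  rw [mul_comm]
  exact h1.trans h2

theorem contained_of_emb {p N : ℕ} (H : SimpleGraph (Fin p)) (F : SimpleGraph (Fin N))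
    (h : Emb H F univ univ) : H.IsContained Fᶜ := by
  obtain ⟨f, -, h2, h3⟩ := h
  have hinj : Function.Injective f := by
    intro a b hab
    exact h2 (by simp) (by simp) hab
  refine ⟨⟨⟨f, ?_⟩, hinj⟩⟩
  intro a b hab
  rw [SimpleGraph.compl_adj]
  exact ⟨fun he => hab.ne (hinj he), h3 a (mem_univ _) b (mem_univ _) hab⟩

theorem contained_of_cpy {k N : ℕ} (G : SimpleGraph (Fin k)) (F : SimpleGraph (Fin N))
    (h : Cpy G F univ univ) : G.IsContained F := by
  obtain ⟨f, -, h2, h3⟩ := h
  have hinj : Function.Injective f := by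
    intro a b hab
    exact h2 (by simp) (by simp) hab
  exact ⟨⟨⟨f, fun {a b} hab => h3 a (mem_univ _) b (mem_univ _) hab⟩, hinj⟩⟩

theorem hered_of_ramsey {k : ℕ} (G : SimpleGraph (Fin k)) (C e : ℝ)
    (hR : ∀ n N : ℕ, C * (n : ℝ) ^ e ≤ N → ∀ F : SimpleGraph (Fin N),
      G.IsContained F ∨ (⊤ : SimpleGraph (Fin n)).IsContained Fᶜ)
    {N : ℕ} (F : SimpleGraph (Fin N)) (hF : ¬ G.IsContained F) : Hered F univ C e := by
  classical
  intro n S _ hS
  -- relabel S
  let g : Fin S.card ↪o Fin N := S.orderEmbOfFin rfl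
  have hg : ∀ i, g i ∈ S := fun i => Finset.orderEmbOfFin_mem S rfl i
  rcases hR n S.card hS (F.comap g) with h | h
  · exfalso
    apply hF
    obtain ⟨c⟩ := h
    refine ⟨⟨⟨fun i => g (c.toHom i), ?_⟩, ?_⟩⟩
    · intro a b hab
      exact c.toHom.map_adj hab
    · intro a b hab
      exact c.injective (g.injective hab)
  · obtain ⟨c⟩ := h
    refine ⟨Finset.univ.image (fun i : Fin n => g (c.toHom i)), ?_, ?_, ?_⟩
    · intro y hy
      rw [Finset.mem_image] at hy
      obtain ⟨i, -, rfl⟩ := hy
      exact hg _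
    · rw [Finset.card_image_of_injective, Finset.card_univ, Fintype.card_fin]
      intro a b hab
      exact c.injective (g.injective hab)
    · intro x hx y hy hadj
      rw [Finset.mem_image] at hx hy
      obtain ⟨i, -, rfl⟩ := hx
      obtain ⟨j, -, rfl⟩ := hy
      by_cases hij : i = j
      · subst hij
        exact hadj.ne rfl
      · have := c.toHom.map_adj (show (⊤ : SimpleGraph (Fin n)).Adj i j from hij)
        rw [SimpleGraph.compl_adj] at this
        exact this.2 hadj

end Pool.Agent.H89.RSL
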