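import Pool.Agent.H89.RSL.Defs

set_option autoImplicit false

namespace Pool.Agent.H89.RSL

open Finset

variable {α β : Type*}

theorem forest_embed {κ : Type*} (G : SimpleGraph κ) (Γ : SimpleGraph β) (A : Finset κ)
    (S : Finset β) (hA : ∀ S ⊆ A, S.Nonempty → ∃ v ∈ S, dg G v S ≤ 1) (hS : S.Nonempty)
    (hdeg : ∀ x ∈ S, A.card < dg Γ x S) : ∀ B ⊆ A, Cpy G Γ B S := by
  classical
  obtain ⟨s₀, hs₀⟩ := hS
  intro B
  induction hn : B.card using Nat.strong_induction_on generalizing B with
  | _ n ih =>
  intro hBA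
  rcases B.eq_empty_or_nonempty with h0 | hne
  · subst h0
    exact ⟨fun _ => s₀, by simp, by simp, by simp⟩
  obtain ⟨v, hv, hdv⟩ := hA B hBA hne
  have hlt : (B.erase v).card < n := by rw [← hn]; exact card_erase_lt_of_mem hv
  obtain ⟨f, hfS, hfinj, hfadj⟩ := ih _ hlt (B.erase v) rfl ((erase_subset _ _).trans hBA)
  have hBn : B.card ≤ A.card := card_le_card hBA
  have himg : ((B.erase v).image f).card < B.card :=
    lt_of_le_of_lt card_image_le (card_erase_lt_of_mem hv)
  -- the place for `v`
  obtain ⟨y, hyS, hyf, hyadj⟩ : ∃ y ∈ S, y ∉ (B.erase v).image f ∧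
      ∀ w ∈ B, G.Adj v w → Γ.Adj (f w) y := by
    by_cases hw : ∃ w ∈ B, G.Adj v w
    · obtain ⟨w, hwB, hvw⟩ := hw
      have huniq : ∀ w' ∈ B, G.Adj v w' → w' = w := by
        intro w' hw'B hvw'
        unfold dg at hdv
        exact card_le_one.1 hdv w' (mem_filter.2 ⟨hw'B, hvw'⟩) w (mem_filter.2 ⟨hwB, hvw⟩)
      have hwe : w ∈ B.erase v := mem_erase.2 ⟨fun h => G.irrefl (h ▸ hvw), hwB⟩
      have h1 := hdeg (f w) (hfS w hwe)
      unfold dg at h1
      have h2 : ((B.erase v).image f).card < (S.filter (fun y => Γ.Adj (f w) y)).card := by omega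
      obtain ⟨y, hy, hyn⟩ := exists_mem_notMem_of_card_lt_card h2
      rw [mem_filter] at hy
      exact ⟨y, hy.1, hyn, fun w' hw' hvw' => by rw [huniq w' hw' hvw']; exact hy.2⟩
    · push Not at hw
      have h1 := hdeg s₀ hs₀
      unfold dg at h1
      have h2 : ((B.erase v).image f).card < S.card :=
        lt_of_lt_of_le (by omega : _ < (S.filter (fun y => Γ.Adj s₀ y)).card)
          (card_filter_le _ _)
      obtain ⟨y, hy, hyn⟩ := exists_mem_notMem_of_card_lt_card h2
      exact ⟨y, hy, hyn, fun w' hw' hvw' => absurd hvw' (hw w' hw')⟩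
  refine ⟨Function.update f v y, ?_, ?_, ?_⟩
  · intro a ha
    by_cases hav : a = v
    · subst hav; simpa using hyS
    · rw [Function.update_of_ne hav]
      exact hfS a (mem_erase.2 ⟨hav, ha⟩)
  · intro a ha b hb hab
    rw [mem_coe] at ha hb
    by_cases hav : a = v
    · by_cases hbv : b = v
      · rw [hav, hbv]
      · exfalso
        subst hav
        rw [Function.update_self, Function.update_of_ne hbv] at hab
        exact hyf (mem_image.2 ⟨b, mem_erase.2 ⟨hbv, hb⟩, hab.symm⟩)
    · by_cases hbv : b = v
      · exfalso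
        subst hbv
        rw [Function.update_self, Function.update_of_ne hav] at hab
        exact hyf (mem_image.2 ⟨a, mem_erase.2 ⟨hav, ha⟩, hab⟩)
      · rw [Function.update_of_ne hav, Function.update_of_ne hbv] at hab
        exact hfinj (mem_coe.2 (mem_erase.2 ⟨hav, ha⟩)) (mem_coe.2 (mem_erase.2 ⟨hbv, hb⟩)) hab
  · intro a ha b hb hab
    by_cases hav : a = v
    · by_cases hbv : b = v
      · rw [hav, hbv] at hab
        exact absurd hab (G.irrefl)
      · subst hav
        rw [Function.update_self, Function.update_of_ne hbv]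
        exact (hyadj b hb hab).symm
    · by_cases hbv : b = v
      · subst hbv
        rw [Function.update_self, Function.update_of_ne hav]
        exact hyadj a ha hab.symm
      · rw [Function.update_of_ne hav, Function.update_of_ne hbv]
        exact hfadj a (mem_erase.2 ⟨hav, ha⟩) b (mem_erase.2 ⟨hbv, hb⟩) hab

theorem forest_indep {κ : Type*} (G : SimpleGraph κ) (Γ : SimpleGraph β) (A : Finset κ)
    (V : Finset β) (hA : ∀ S ⊆ A, S.Nonempty → ∃ v ∈ S, dg G v S ≤ 1)
    (hG : ¬ Cpy G Γ A V) : ∃ I ⊆ V, Indep Γ I ∧ V.card ≤ (A.card + 1) * I.card := by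
  classical
  have hlow : ∀ S ⊆ V, S.Nonempty → ∃ x ∈ S, dg Γ x S ≤ A.card := by
    intro S hS hne
    by_contra h
    push Not at h
    obtain ⟨f, h1, h2, h3⟩ := forest_embed G Γ A S hA hne h A (Subset.refl _)
    exact hG ⟨f, fun a ha => hS (h1 a ha), h2, h3⟩
  have key : ∀ V' ⊆ V, ∃ I ⊆ V', Indep Γ I ∧ V'.card ≤ (A.card + 1) * I.card := by
    intro V'
    induction hn : V'.card using Nat.strong_induction_on generalizing V' with
    | _ n ih =>
    intro hV'
    rcases V'.eq_empty_or_nonempty with h0 | hne
    · subst h0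
      refine ⟨∅, Subset.refl _, ?_, by simp at hn; omega⟩
      intro x hx
      simp at hx
    obtain ⟨x, hx, hdx⟩ := hlow V' hV' hne
    have hsub : (V'.erase x).filter (fun y => ¬ Γ.Adj x y) ⊆ V' :=
      (filter_subset _ _).trans (erase_subset _ _)
    have hlt : ((V'.erase x).filter (fun y => ¬ Γ.Adj x y)).card < n := by
      rw [← hn]
      exact lt_of_le_of_lt (card_filter_le _ _) (card_erase_lt_of_mem hx)
    obtain ⟨I, hI, hind, hcard⟩ := ih _ hlt _ rfl (hsub.trans hV')
    have hxI : x ∉ I := fun h => by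
      have := hI h
      rw [mem_filter, mem_erase] at this
      exact this.1.1 rfl
    refine ⟨insert x I, ?_, ?_, ?_⟩
    · intro y hy
      rcases mem_insert.1 hy with h | h
      · rw [h]; exact hx
      · exact hsub (hI h)
    · intro y hy z hz
      rcases mem_insert.1 hy with h | h
      · rcases mem_insert.1 hz with h' | h'
        · rw [h, h']; exact Γ.irrefl
        · rw [h]
          exact (mem_filter.1 (hI h')).2
      · rcases mem_insert.1 hz with h' | h'
        · rw [h']
          exact fun hh => (mem_filter.1 (hI h)).2 hh.symm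
        · exact hind y h z h'
    · rw [card_insert_of_notMem hxI]
      have h1 : V'.card ≤ ((V'.erase x).filter (fun y => ¬ Γ.Adj x y)).card + 1 + dg Γ x V' := by
        have h2 : (V'.erase x).card = ((V'.erase x).filter (fun y => Γ.Adj x y)).card +
            ((V'.erase x).filter (fun y => ¬ Γ.Adj x y)).card :=
          (card_filter_add_card_filter_not (s := V'.erase x) (fun y => Γ.Adj x y)).symm
        have h3 : ((V'.erase x).filter (fun y => Γ.Adj x y)).card ≤ dg Γ x V' := by
          unfold dg
          convert card_le_card (filter_subset_filter (fun y => Γ.Adj x y) (erase_subset x V'))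
        have h4 := card_erase_of_mem hx
        have h5 : 0 < V'.card := card_pos.2 hne
        omega
      have h6 : (A.card + 1) * (I.card + 1) = (A.card + 1) * I.card + (A.card + 1) := by ring
      omega
  exact key V (Subset.refl _)

theorem nbr_step {κ : Type*} [DecidableEq κ] [DecidableEq β] (G : SimpleGraph κ)
    (Γ : SimpleGraph β) (A : Finset κ)
    (V N : Finset β) (x : β) (hx : x ∈ V) (hN : N ⊆ V) (hNx : ∀ y ∈ N, Γ.Adj x y) (v : κ)
    (hG : ¬ Cpy G Γ A V) : ¬ Cpy G Γ (A.erase v) N := by
  rintro ⟨f, hfN, hfinj, hfadj⟩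
  apply hG
  have hne : ∀ a ∈ A, a ≠ v → f a ≠ x := by
    intro a ha hav h
    have := hNx _ (hfN a (mem_erase.2 ⟨hav, ha⟩))
    rw [h] at this
    exact Γ.irrefl this
  refine ⟨Function.update f v x, ?_, ?_, ?_⟩
  · intro a ha
    by_cases hav : a = v
    · subst hav; simpa using hx
    · rw [Function.update_of_ne hav]
      exact hN (hfN a (mem_erase.2 ⟨hav, ha⟩))
  · intro a ha b hb hab
    rw [mem_coe] at ha hb
    by_cases hav : a = v
    · by_cases hbv : b = v
      · rw [hav, hbv]
      · exfalso
        subst hav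
        rw [Function.update_self, Function.update_of_ne hbv] at hab
        exact hne b hb hbv hab.symm
    · by_cases hbv : b = v
      · exfalso
        subst hbv
        rw [Function.update_self, Function.update_of_ne hav] at hab
        exact hne a ha hav hab
      · rw [Function.update_of_ne hav, Function.update_of_ne hbv] at hab
        exact hfinj (mem_coe.2 (mem_erase.2 ⟨hav, ha⟩)) (mem_coe.2 (mem_erase.2 ⟨hbv, hb⟩)) hab
  · intro a ha b hb hab
    by_cases hav : a = v
    · by_cases hbv : b = v
      · rw [hav, hbv] at hab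
        exact absurd hab (G.irrefl)
      · subst hav
        rw [Function.update_self, Function.update_of_ne hbv]
        exact hNx _ (hfN b (mem_erase.2 ⟨hbv, hb⟩))
    · by_cases hbv : b = v
      · subst hbv
        rw [Function.update_self, Function.update_of_ne hav]
        exact (hNx _ (hfN a (mem_erase.2 ⟨hav, ha⟩))).symm
      · rw [Function.update_of_ne hav, Function.update_of_ne hbv]
        exact hfadj a (mem_erase.2 ⟨hav, ha⟩) b (mem_erase.2 ⟨hbv, hb⟩) hab

end Pool.Agent.H89.RSL
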