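import Mathlib

set_option autoImplicit false

namespace Pool.Agent.H89.RSL

/-- parameters for the sparse set lemma, exponent `1 + η`; used with `D` large -/
theorem params (C e η : ℝ) (hC : 1 ≤ C) (he1 : 1 < e) (he2 : e ≤ 2) (hη : 0 < η) (hη1 : η ≤ 1) :
    ∃ D₀ : ℕ, ∀ D : ℕ, D₀ ≤ D → ∃ a s L : ℕ, 0 < a ∧ a ≤ s ∧ 6 * s ≤ 2 ^ L * a ∧
      C * (a : ℝ) ^ e ≤ s ∧ 4 * D * (L + 1) * (L + 5) ≤ a ∧
      (s : ℝ) ≤ (D : ℝ) ^ (e + η) ∧ (s : ℝ) ≤ a * (D : ℝ) ^ (e - 1 + η) ∧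
      (a : ℝ) ≤ (D : ℝ) ^ (1 + η) := by
  set K : ℝ := 4 * (17 / (η / 16)) ^ 2 with hK
  set M : ℝ := max K (8 * C) with hM
  have hM8 : 8 * C ≤ M := le_max_right _ _
  have hMK : K ≤ M := le_max_left _ _
  have hM0 : 0 < M := by linarith
  refine ⟨max 3 ⌈M ^ (8 / η)⌉₊, ?_⟩
  intro D hD
  have hD3 : 3 ≤ D := (le_max_left _ _).trans hD
  have hD3' : (3 : ℝ) ≤ D := by exact_mod_cast hD3
  have hD1 : (1 : ℝ) ≤ D := by linarith
  have hD0 : (0 : ℝ) < D := by linarith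
  have hX : M ≤ (D : ℝ) ^ (η / 8) := by
    have h1 : M ^ (8 / η) ≤ D := (Nat.le_ceil _).trans (by exact_mod_cast (le_max_right _ _).trans hD)
    calc M = (M ^ (8 / η)) ^ (η / 8) := by
          rw [← Real.rpow_mul hM0.le]
          have : 8 / η * (η / 8) = 1 := by field_simp
          rw [this, Real.rpow_one]
      _ ≤ (D : ℝ) ^ (η / 8) := Real.rpow_le_rpow (by positivity) h1 (by positivity)
  have hmono : ∀ {y z : ℝ}, y ≤ z → (D : ℝ) ^ y ≤ (D : ℝ) ^ z := fun h =>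
    Real.rpow_le_rpow_of_exponent_le hD1 h
  have hX8 : 8 * C ≤ (D : ℝ) ^ (η / 8) := hM8.trans hX
  have hXK : K ≤ (D : ℝ) ^ (η / 8) := hMK.trans hX
  set Y : ℝ := (D : ℝ) ^ (1 + η / 4) with hY
  have hY1 : 1 ≤ Y := Real.one_le_rpow hD1 (by linarith)
  set a : ℕ := ⌈Y⌉₊ with ha
  have ha1 : Y ≤ a := Nat.le_ceil _
  have ha2 : (a : ℝ) ≤ 2 * Y := by
    have := (Nat.ceil_lt_add_one (by linarith : (0 : ℝ) ≤ Y)).le
    rw [← ha] at this
    linarith
  have ha1' : (1 : ℝ) ≤ a := hY1.trans ha1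
  have ha0 : (0 : ℝ) < a := by linarith
  have haN : 0 < a := by exact_mod_cast ha0
  have hae : (a : ℝ) ≤ (a : ℝ) ^ e := by
    conv_lhs => rw [← Real.rpow_one (a : ℝ)]
    exact Real.rpow_le_rpow_of_exponent_le ha1' he1.le
  have hae0 : 0 < (a : ℝ) ^ e := by positivity
  set s : ℕ := ⌈C * (a : ℝ) ^ e⌉₊ with hs
  have hs1 : C * (a : ℝ) ^ e ≤ s := Nat.le_ceil _
  have hs2 : (s : ℝ) ≤ 2 * (C * (a : ℝ) ^ e) := by
    have h1 := (Nat.ceil_lt_add_one (by positivity : (0 : ℝ) ≤ C * (a : ℝ) ^ e)).le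
    rw [← hs] at h1
    have h2 : 1 ≤ C * (a : ℝ) ^ e := by nlinarith
    linarith
  have has : a ≤ s := by
    have : (a : ℝ) ≤ s := by nlinarith
    exact_mod_cast this
  -- `s ≤ a D^(e-1+η)`
  have hsa : (s : ℝ) ≤ a * (D : ℝ) ^ (e - 1 + η) := by
    have h1 : (a : ℝ) ^ e = a * (a : ℝ) ^ (e - 1) := by
      have : e = 1 + (e - 1) := by ring
      conv_lhs => rw [this]
      rw [Real.rpow_add ha0, Real.rpow_one]
    have h2 : (a : ℝ) ^ (e - 1) ≤ 2 * (D : ℝ) ^ (e - 1 + η / 4) := by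
      calc (a : ℝ) ^ (e - 1) ≤ (2 * Y) ^ (e - 1) := Real.rpow_le_rpow ha0.le ha2 (by linarith)
        _ = (2 : ℝ) ^ (e - 1) * (D : ℝ) ^ ((1 + η / 4) * (e - 1)) := by
            rw [Real.mul_rpow (by norm_num) (by linarith), hY, ← Real.rpow_mul hD0.le]
        _ ≤ (2 : ℝ) ^ (1 : ℝ) * (D : ℝ) ^ (e - 1 + η / 4) := by
            apply mul_le_mul
            · exact Real.rpow_le_rpow_of_exponent_le (by norm_num) (by linarith)
            · apply hmono
              nlinarith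
            · positivity
            · positivity
        _ = 2 * (D : ℝ) ^ (e - 1 + η / 4) := by rw [Real.rpow_one]
    calc (s : ℝ) ≤ 2 * (C * (a : ℝ) ^ e) := hs2
      _ = a * (2 * C * (a : ℝ) ^ (e - 1)) := by rw [h1]; ring
      _ ≤ a * (2 * C * (2 * (D : ℝ) ^ (e - 1 + η / 4))) := by
          apply mul_le_mul_of_nonneg_left _ ha0.le
          apply mul_le_mul_of_nonneg_left h2 (by linarith)
      _ = a * ((4 * C) * (D : ℝ) ^ (e - 1 + η / 4)) := by ring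
      _ ≤ a * ((D : ℝ) ^ (η / 8) * (D : ℝ) ^ (e - 1 + η / 4)) := by
          apply mul_le_mul_of_nonneg_left _ ha0.le
          apply mul_le_mul_of_nonneg_right _ (by positivity)
          linarith
      _ = a * (D : ℝ) ^ (η / 8 + (e - 1 + η / 4)) := by rw [← Real.rpow_add hD0]
      _ ≤ a * (D : ℝ) ^ (e - 1 + η) := by
          apply mul_le_mul_of_nonneg_left _ ha0.le
          apply hmono
          linarith
  have haD : (a : ℝ) ≤ (D : ℝ) ^ (1 + η) := by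
    calc (a : ℝ) ≤ 2 * Y := ha2
      _ ≤ (D : ℝ) ^ (η / 8) * Y := by
          apply mul_le_mul_of_nonneg_right _ (by linarith)
          linarith
      _ = (D : ℝ) ^ (η / 8 + (1 + η / 4)) := by rw [hY, ← Real.rpow_add hD0]
      _ ≤ (D : ℝ) ^ (1 + η) := hmono (by linarith)
  have hsD : (s : ℝ) ≤ (D : ℝ) ^ (e + η) := by
    have h2 : (a : ℝ) ^ e ≤ 4 * (D : ℝ) ^ (e + η / 2) := by
      calc (a : ℝ) ^ e ≤ (2 * Y) ^ e := Real.rpow_le_rpow ha0.le ha2 (by linarith)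
        _ = (2 : ℝ) ^ e * (D : ℝ) ^ ((1 + η / 4) * e) := by
            rw [Real.mul_rpow (by norm_num) (by linarith), hY, ← Real.rpow_mul hD0.le]
        _ ≤ (2 : ℝ) ^ (2 : ℝ) * (D : ℝ) ^ (e + η / 2) := by
            apply mul_le_mul
            · exact Real.rpow_le_rpow_of_exponent_le (by norm_num) (by linarith)
            · apply hmono
              nlinarith
            · positivity
            · positivity
        _ = 4 * (D : ℝ) ^ (e + η / 2) := by rw [Real.rpow_two]; norm_num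
    calc (s : ℝ) ≤ 2 * (C * (a : ℝ) ^ e) := hs2
      _ ≤ 2 * (C * (4 * (D : ℝ) ^ (e + η / 2))) := by
          apply mul_le_mul_of_nonneg_left _ (by norm_num)
          apply mul_le_mul_of_nonneg_left h2 (by linarith)
      _ = (8 * C) * (D : ℝ) ^ (e + η / 2) := by ring
      _ ≤ (D : ℝ) ^ (η / 8) * (D : ℝ) ^ (e + η / 2) :=
          mul_le_mul_of_nonneg_right hX8 (by positivity)
      _ = (D : ℝ) ^ (η / 8 + (e + η / 2)) := by rw [← Real.rpow_add hD0]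
      _ ≤ (D : ℝ) ^ (e + η) := hmono (by linarith)
  set l : ℕ := Nat.log 2 D with hl
  have hl1 : D < 2 ^ (l + 1) := Nat.lt_pow_succ_log_self (by norm_num) D
  have hl2 : 2 ^ l ≤ D := Nat.pow_log_le_self 2 (by omega)
  refine ⟨a, s, 3 * (l + 1) + 3, haN, has, ?_, hs1, ?_, hsD, hsa, haD⟩
  · have h1 : s ≤ D ^ 3 := by
      have h2 : (s : ℝ) ≤ (D : ℝ) ^ (3 : ℝ) := hsD.trans (hmono (by linarith))
      have h3 : (D : ℝ) ^ (3 : ℝ) = ((D ^ 3 : ℕ) : ℝ) := by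
        push_cast
        norm_cast
      rw [h3] at h2
      exact_mod_cast h2
    have h2 : D ^ 3 ≤ (2 ^ (l + 1)) ^ 3 := Nat.pow_le_pow_left hl1.le 3
    have h3 : 2 ^ (3 * (l + 1) + 3) = 8 * (2 ^ (l + 1)) ^ 3 := by
      rw [pow_add, ← pow_mul, mul_comm (l + 1) 3]; ring
    calc 6 * s ≤ 8 * (2 ^ (l + 1)) ^ 3 := by omega
      _ = 2 ^ (3 * (l + 1) + 3) := h3.symm
      _ ≤ 2 ^ (3 * (l + 1) + 3) * a := Nat.le_mul_of_pos_right _ haN
  · have hlog : (l : ℝ) ≤ 2 * Real.log D := by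
      have h1 : ((2 : ℝ)) ^ l ≤ D := by exact_mod_cast hl2
      have h2 : Real.log ((2 : ℝ) ^ l) ≤ Real.log D := Real.log_le_log (by positivity) h1
      rw [Real.log_pow] at h2
      have h3 : (1 : ℝ) / 2 ≤ Real.log 2 := by linarith [Real.log_two_gt_d9]
      have h4 : (0 : ℝ) ≤ l := by positivity
      nlinarith
    have hlog1 : 1 ≤ Real.log D := by
      rw [Real.le_log_iff_exp_le hD0]
      linarith [Real.exp_one_lt_d9]
    have hlogD : Real.log D ≤ (D : ℝ) ^ (η / 16) / (η / 16) :=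
      Real.log_le_rpow_div hD0.le (by positivity)
    have hL5 : ((3 * (l + 1) + 3 + 5 : ℕ) : ℝ) ≤ 17 / (η / 16) * (D : ℝ) ^ (η / 16) := by
      push_cast
      calc 3 * ((l : ℝ) + 1) + 3 + 5 ≤ 17 * Real.log D := by linarith
        _ ≤ 17 * ((D : ℝ) ^ (η / 16) / (η / 16)) := by linarith
        _ = 17 / (η / 16) * (D : ℝ) ^ (η / 16) := by ring
    have hmain : ((4 * D * (3 * (l + 1) + 3 + 1) * (3 * (l + 1) + 3 + 5) : ℕ) : ℝ) ≤ a := by
      have h1 : ((3 * (l + 1) + 3 + 1 : ℕ) : ℝ) ≤ ((3 * (l + 1) + 3 + 5 : ℕ) : ℝ) := by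
        exact_mod_cast (by omega : 3 * (l + 1) + 3 + 1 ≤ 3 * (l + 1) + 3 + 5)
      have h0 : (0 : ℝ) ≤ ((3 * (l + 1) + 3 + 1 : ℕ) : ℝ) := by positivity
      calc ((4 * D * (3 * (l + 1) + 3 + 1) * (3 * (l + 1) + 3 + 5) : ℕ) : ℝ)
          = 4 * D * (((3 * (l + 1) + 3 + 1 : ℕ) : ℝ) * ((3 * (l + 1) + 3 + 5 : ℕ) : ℝ)) := by
            push_cast; ring
        _ ≤ 4 * D * ((17 / (η / 16) * (D : ℝ) ^ (η / 16)) *
              (17 / (η / 16) * (D : ℝ) ^ (η / 16))) := by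
            apply mul_le_mul_of_nonneg_left _ (by positivity)
            exact mul_le_mul (h1.trans hL5) hL5 (by positivity) (by positivity)
        _ = K * (D * ((D : ℝ) ^ (η / 16) * (D : ℝ) ^ (η / 16))) := by
            rw [hK]; ring
        _ ≤ (D : ℝ) ^ (η / 8) * ((D : ℝ) ^ (1 : ℝ) * ((D : ℝ) ^ (η / 16) * (D : ℝ) ^ (η / 16))) := by
            rw [Real.rpow_one]
            exact mul_le_mul_of_nonneg_right hXK (by positivity)
        _ = Y := by
            rw [← Real.rpow_add hD0, ← Real.rpow_add hD0, ← Real.rpow_add hD0, hY]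
            congr 1
            ring
        _ ≤ a := ha1
    exact_mod_cast hmain

end Pool.Agent.H89.RSL
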