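import Pool.Agent.H89.RSL.Defs

set_option autoImplicit false

namespace Pool.Agent.H89.RSL

open Finset

theorem desc_ratio (u M : ℕ) (h : u ≤ M) (j : ℕ) :
    u.descFactorial j * M ^ j ≤ u ^ j * M.descFactorial j := by
  induction j with
  | zero => simp
  | succ k ih =>
    rw [Nat.descFactorial_succ, Nat.descFactorial_succ, pow_succ, pow_succ]
    have h1 : (u - k) * M ≤ u * (M - k) := by
      rcases le_total k u with hk | hk
      · obtain ⟨c, rfl⟩ := Nat.exists_eq_add_of_le hk
        obtain ⟨d, rfl⟩ := Nat.exists_eq_add_of_le h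
        have e1 : k + c - k = c := by omega
        have e2 : k + c + d - k = c + d := by omega
        rw [e1, e2]
        nlinarith [Nat.zero_le (k * d)]
      · have : u - k = 0 := by omega
        rw [this]; simp
    calc (u - k) * u.descFactorial k * (M ^ k * M)
        = (u.descFactorial k * M ^ k) * ((u - k) * M) := by ring
      _ ≤ (u ^ k * M.descFactorial k) * (u * (M - k)) := Nat.mul_le_mul ih h1
      _ = u ^ k * u * ((M - k) * M.descFactorial k) := by ring

theorem choose_ratio (u M : ℕ) (h : u ≤ M) (j : ℕ) :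
    u.choose j * M ^ j ≤ u ^ j * M.choose j := by
  have h1 := desc_ratio u M h j
  rw [Nat.descFactorial_eq_factorial_mul_choose, Nat.descFactorial_eq_factorial_mul_choose] at h1
  have h2 : j.factorial * (u.choose j * M ^ j) ≤ j.factorial * (u ^ j * M.choose j) := by
    calc j.factorial * (u.choose j * M ^ j) = j.factorial * u.choose j * M ^ j := by ring
      _ ≤ u ^ j * (j.factorial * M.choose j) := h1
      _ = j.factorial * (u ^ j * M.choose j) := by ring
  exact Nat.le_of_mul_le_mul_left h2 (Nat.factorial_pos j)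

theorem pow_self_le (a : ℕ) : a ^ a ≤ 3 ^ a * a.factorial := by
  have h1 : (a : ℝ) ^ a / a.factorial ≤ Real.exp a :=
    Real.pow_div_factorial_le_exp (a : ℝ) (Nat.cast_nonneg a) a
  have h2 : Real.exp (a : ℝ) ≤ 3 ^ a := by
    have : Real.exp (a : ℝ) = (Real.exp 1) ^ a := by
      rw [← Real.exp_nat_mul]; simp
    rw [this]
    have h3 : Real.exp 1 ≤ 3 := le_of_lt (lt_trans Real.exp_one_lt_d9 (by norm_num))
    exact pow_le_pow_left₀ (Real.exp_pos 1).le h3 a
  have hf : (0 : ℝ) < a.factorial := by exact_mod_cast Nat.factorial_pos a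
  have h4 : (a : ℝ) ^ a ≤ 3 ^ a * a.factorial := by
    rw [div_le_iff₀ hf] at h1
    exact le_trans h1 (mul_le_mul_of_nonneg_right h2 hf.le)
  exact_mod_cast h4

theorem choose_mul_pow_le (s a : ℕ) : s.choose a * a ^ a ≤ (3 * s) ^ a := by
  have h1 : a.factorial * s.choose a ≤ s ^ a := by
    rw [← Nat.descFactorial_eq_factorial_mul_choose]
    exact Nat.descFactorial_le_pow s a
  calc s.choose a * a ^ a ≤ s.choose a * (3 ^ a * a.factorial) :=
        Nat.mul_le_mul_left _ (pow_self_le a)
    _ = 3 ^ a * (a.factorial * s.choose a) := by ring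
    _ ≤ 3 ^ a * s ^ a := Nat.mul_le_mul_left _ h1
    _ = (3 * s) ^ a := by rw [mul_pow]

theorem term_bound (a s N u L t : ℕ) (ha : 0 < a) (has : a ≤ s) (hsN : s ≤ N)
    (hL : 6 * s ≤ 2 ^ L * a) (ht : 2 * t ≤ a) (hu : 64 * s * u ≤ a * N) :
    N.choose t * u.choose (a - t) * s.choose a * 4 ^ (a - t) ≤ N.choose a * 2 ^ (L * t) := by
  obtain ⟨j, hj⟩ : ∃ j, a = t + j := ⟨a - t, by omega⟩
  have hjt : a - t = j := by omega
  rw [hjt]
  have hN : 0 < N := by omega
  have huN : 64 * u ≤ N := by
    have h1 : a * (64 * u) ≤ a * N := by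
      calc a * (64 * u) ≤ s * (64 * u) := Nat.mul_le_mul_right _ has
        _ = 64 * s * u := by ring
        _ ≤ a * N := hu
    exact Nat.le_of_mul_le_mul_left h1 ha
  have htN : 2 * t ≤ N := by omega
  have h1 : N.choose a * a.choose t = N.choose t * (N - t).choose j := by
    have := Nat.choose_mul (n := N) (k := a) (s := t) (by omega)
    rw [this, hjt]
  have h2 : u.choose j * N ^ j ≤ (2 * u) ^ j * (N - t).choose j := by
    have e1 : N ^ j ≤ 2 ^ j * (N - t) ^ j := by
      rw [← mul_pow]
      exact Nat.pow_le_pow_left (by omega) j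
    calc u.choose j * N ^ j ≤ u.choose j * (2 ^ j * (N - t) ^ j) := Nat.mul_le_mul_left _ e1
      _ = 2 ^ j * (u.choose j * (N - t) ^ j) := by ring
      _ ≤ 2 ^ j * (u ^ j * (N - t).choose j) :=
          Nat.mul_le_mul_left _ (choose_ratio u (N - t) (by omega) j)
      _ = (2 * u) ^ j * (N - t).choose j := by rw [mul_pow]; ring
  have h3 := choose_mul_pow_le s a
  have h4 : a.choose t ≤ 2 ^ a := Nat.choose_le_two_pow a t
  have h5 : (6 * s) ^ t ≤ 2 ^ (L * t) * a ^ t := by
    calc (6 * s) ^ t ≤ (2 ^ L * a) ^ t := Nat.pow_le_pow_left hL t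
      _ = 2 ^ (L * t) * a ^ t := by rw [mul_pow, ← pow_mul]
  have h6 : (48 * s * u) ^ j ≤ (a * N) ^ j := by
    apply Nat.pow_le_pow_left
    calc 48 * s * u = 48 * (s * u) := by ring
      _ ≤ 64 * (s * u) := by nlinarith [Nat.zero_le (s * u)]
      _ = 64 * s * u := by ring
      _ ≤ a * N := hu
  have hpos : 0 < N ^ j * a ^ a := Nat.mul_pos (pow_pos hN j) (pow_pos ha a)
  apply Nat.le_of_mul_le_mul_left _ hpos
  calc N ^ j * a ^ a * (N.choose t * u.choose j * s.choose a * 4 ^ j)
      = N.choose t * (u.choose j * N ^ j) * (s.choose a * a ^ a) * 4 ^ j := by ring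
    _ ≤ N.choose t * ((2 * u) ^ j * (N - t).choose j) * (3 * s) ^ a * 4 ^ j := by
        gcongr
    _ = (N.choose t * (N - t).choose j) * (2 * u) ^ j * (3 * s) ^ a * 4 ^ j := by ring
    _ = (N.choose a * a.choose t) * (2 * u) ^ j * (3 * s) ^ a * 4 ^ j := by rw [h1]
    _ ≤ (N.choose a * 2 ^ a) * (2 * u) ^ j * (3 * s) ^ a * 4 ^ j := by gcongr
    _ = N.choose a * ((6 * s) ^ t * (48 * s * u) ^ j) := by
        have e1 : (6 * s) ^ t * (48 * s * u) ^ j = 2 ^ a * (2 * u) ^ j * (3 * s) ^ a * 4 ^ j := by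
          rw [hj, show 48 * s * u = (2 * (3 * s)) * (2 * u) * 4 by ring,
            show 6 * s = 2 * (3 * s) by ring]
          rw [mul_pow (2 * (3 * s) * (2 * u)) 4 j, mul_pow (2 * (3 * s)) (2 * u) j,
            mul_pow 2 (3 * s) t, mul_pow 2 (3 * s) j, pow_add, pow_add]
          ring
        rw [e1]; ring
    _ ≤ N.choose a * ((2 ^ (L * t) * a ^ t) * (a * N) ^ j) := by gcongr
    _ = N ^ j * a ^ a * (N.choose a * 2 ^ (L * t)) := by
        rw [mul_pow]
        have : a ^ a = a ^ t * a ^ j := by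
          rw [← pow_add, ← hj]
        rw [this]; ring

theorem num_contra (a s N u T L : ℕ) (ha : 0 < a) (has : a ≤ s) (hsN : s ≤ N) (hL1 : 1 ≤ L)
    (hL : 6 * s ≤ 2 ^ L * a) (hT : (L + 1) * T < a) (hu : 64 * s * u ≤ a * N) :
    (∑ t ∈ range (T + 1), N.choose t * u.choose (a - t)) * (N - a).choose (s - a)
      < N.choose s := by
  have hTa : 2 * T ≤ a := by nlinarith
  have key : (∑ t ∈ range (T + 1), N.choose t * u.choose (a - t)) * s.choose a < N.choose a := by
    have hca : 0 < N.choose a := Nat.choose_pos (le_trans has hsN)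
    have h1 : (∑ t ∈ range (T + 1), N.choose t * u.choose (a - t)) * s.choose a * 4 ^ a ≤
        ∑ t ∈ range (T + 1), N.choose a * 2 ^ ((L + 2) * T) := by
      rw [Finset.sum_mul, Finset.sum_mul]
      apply Finset.sum_le_sum
      intro t ht
      have ht' : t ≤ T := by
        have := Finset.mem_range.mp ht
        omega
      have h2 := term_bound a s N u L t ha has hsN hL (by omega) hu
      calc N.choose t * u.choose (a - t) * s.choose a * 4 ^ a
          = (N.choose t * u.choose (a - t) * s.choose a * 4 ^ (a - t)) * 4 ^ t := by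
            have : (4 : ℕ) ^ a = 4 ^ (a - t) * 4 ^ t := by
              rw [← pow_add]; congr 1; omega
            rw [this]; ring
        _ ≤ (N.choose a * 2 ^ (L * t)) * 4 ^ t := Nat.mul_le_mul_right _ h2
        _ = N.choose a * 2 ^ ((L + 2) * t) := by
            rw [show (4 : ℕ) = 2 ^ 2 by norm_num, ← pow_mul, mul_assoc, ← pow_add]
            congr 2; ring
        _ ≤ N.choose a * 2 ^ ((L + 2) * T) :=
            Nat.mul_le_mul_left _ (Nat.pow_le_pow_right (by norm_num)
              (Nat.mul_le_mul_left _ ht'))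
    rw [Finset.sum_const, Finset.card_range, smul_eq_mul] at h1
    have h3 : (T + 1) * 2 ^ ((L + 2) * T) < 4 ^ a := by
      have e1 : T + 1 ≤ 2 ^ T := Nat.lt_two_pow_self
      calc (T + 1) * 2 ^ ((L + 2) * T) ≤ 2 ^ T * 2 ^ ((L + 2) * T) := Nat.mul_le_mul_right _ e1
        _ = 2 ^ ((L + 3) * T) := by rw [← pow_add]; congr 1; ring
        _ < 2 ^ (2 * a) := by
            apply Nat.pow_lt_pow_right (by norm_num)
            have : (L + 3) * T ≤ 2 * ((L + 1) * T) := by nlinarith [Nat.zero_le T]
            omega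
        _ = 4 ^ a := by rw [pow_mul]; norm_num
    have h4 : (∑ t ∈ range (T + 1), N.choose t * u.choose (a - t)) * s.choose a * 4 ^ a <
        N.choose a * 4 ^ a := by
      calc (∑ t ∈ range (T + 1), N.choose t * u.choose (a - t)) * s.choose a * 4 ^ a
          ≤ (T + 1) * (N.choose a * 2 ^ ((L + 2) * T)) := h1
        _ = N.choose a * ((T + 1) * 2 ^ ((L + 2) * T)) := by ring
        _ < N.choose a * 4 ^ a := (Nat.mul_lt_mul_left hca).mpr h3
    exact lt_of_mul_lt_mul_right h4 (Nat.zero_le _)
  have hsa : 0 < s.choose a := Nat.choose_pos has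
  have hnsa : 0 < (N - a).choose (s - a) := Nat.choose_pos (by omega)
  have hmul : N.choose s * s.choose a = N.choose a * (N - a).choose (s - a) :=
    Nat.choose_mul has
  have h5 : (∑ t ∈ range (T + 1), N.choose t * u.choose (a - t)) * (N - a).choose (s - a) *
      s.choose a < N.choose s * s.choose a := by
    rw [hmul]
    calc (∑ t ∈ range (T + 1), N.choose t * u.choose (a - t)) * (N - a).choose (s - a) *
        s.choose a
        = ((∑ t ∈ range (T + 1), N.choose t * u.choose (a - t)) * s.choose a) *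
          (N - a).choose (s - a) := by ring
      _ < N.choose a * (N - a).choose (s - a) := (Nat.mul_lt_mul_right hnsa).mpr key
  exact lt_of_mul_lt_mul_right h5 (Nat.zero_le _)

end Pool.Agent.H89.RSL
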