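import Pool.Agent.H89.RSL.Defs

set_option autoImplicit false

namespace Pool.Agent.H89.RSL

open Finset

variable {β : Type*}

theorem supersat (Γ : SimpleGraph β) (V : Finset β) (a s : ℕ) (has : a ≤ s) (hs : s ≤ V.card)
    (h : ∀ S ⊆ V, S.card = s → ∃ I ⊆ S, I.card = a ∧ Indep Γ I) :
    V.card.choose s ≤ ind Γ V a * (V.card - a).choose (s - a) := by
  classical
  have hI : ind Γ V a = ((V.powersetCard a).filter (fun I => Indep Γ I)).card := by
    unfold ind
    congr
  rw [hI, ← Finset.card_powersetCard s V]
  -- the s-subsets are covered by the families of s-sets containing a given independent a-set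
  have hcov : V.powersetCard s ⊆ ((V.powersetCard a).filter (fun I => Indep Γ I)).biUnion
      (fun I => (V.powersetCard s).filter (fun S => I ⊆ S)) := by
    intro S hS
    rw [Finset.mem_powersetCard] at hS
    obtain ⟨I, hIS, hIc, hInd⟩ := h S hS.1 hS.2
    rw [Finset.mem_biUnion]
    refine ⟨I, ?_, ?_⟩
    · rw [Finset.mem_filter, Finset.mem_powersetCard]
      exact ⟨⟨hIS.trans hS.1, hIc⟩, hInd⟩
    · rw [Finset.mem_filter, Finset.mem_powersetCard]
      exact ⟨hS, hIS⟩
  refine (Finset.card_le_card hcov).trans (Finset.card_biUnion_le_card_mul _ _ _ ?_)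
  intro I hI'
  rw [Finset.mem_filter, Finset.mem_powersetCard] at hI'
  obtain ⟨⟨hIV, hIc⟩, -⟩ := hI'
  have : (V.card - a).choose (s - a) = ((V \ I).powersetCard (s - a)).card := by
    rw [Finset.card_powersetCard, Finset.card_sdiff_of_subset hIV, hIc]
  rw [this]
  apply Finset.card_le_card_of_injOn (fun S => S \ I)
  · intro S hS
    rw [Finset.mem_coe, Finset.mem_filter, Finset.mem_powersetCard] at hS
    rw [Finset.mem_coe, Finset.mem_powersetCard]
    refine ⟨Finset.sdiff_subset_sdiff hS.1.1 (Finset.Subset.refl _), ?_⟩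
    simp only []
    rw [Finset.card_sdiff_of_subset hS.2, hS.1.2, hIc]
  · intro S hS S' hS' heq
    rw [Finset.mem_coe, Finset.mem_filter] at hS hS'
    simp only [] at heq
    rw [← Finset.sdiff_union_of_subset hS.2, ← Finset.sdiff_union_of_subset hS'.2, heq]

end Pool.Agent.H89.RSL
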