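import Pool.Agent.H89.RSL.Kw
import Pool.Agent.H89.RSL.Sup
import Pool.Agent.H89.RSL.Num

set_option autoImplicit false

namespace Pool.Agent.H89.RSL

open Finset

variable {β : Type*}

lemma dg_le_card (Γ : SimpleGraph β) (x : β) (A : Finset β) : dg Γ x A ≤ A.card := by
  classical
  unfold dg
  exact Finset.card_filter_le _ _

lemma exp_neg_le_two_pow (n : ℕ) : Real.exp (-(n : ℝ)) ≤ ((2 : ℝ) ^ n)⁻¹ := by
  rw [Real.exp_neg]
  apply inv_anti₀ (by positivity)
  have h : (2 : ℝ) ≤ Real.exp 1 := by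
    have := Real.add_one_le_exp (1 : ℝ)
    linarith
  calc (2 : ℝ) ^ n ≤ (Real.exp 1) ^ n := pow_le_pow_left₀ (by norm_num) h n
    _ = Real.exp n := by rw [← Real.exp_nat_mul, mul_one]

theorem sparse_set (Γ : SimpleGraph β) (V : Finset β) (a s L : ℕ) (ha : 0 < a) (has : a ≤ s)
    (hs : s ≤ V.card) (hL : 6 * s ≤ 2 ^ L * a)
    (h : ∀ S ⊆ V, S.card = s → ∃ I ⊆ S, I.card = a ∧ Indep Γ I) :
    ∃ U ⊆ V, a * V.card ≤ 128 * s * U.card ∧
      ∀ x ∈ U, a * dg Γ x U ≤ 2 * (L + 1) * (L + 5) * U.card := by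
  by_contra hcon
  push Not at hcon
  set N := V.card with hN
  have hs0 : 0 < s := lt_of_lt_of_le ha has
  -- L is at least 3
  have hL3 : 3 ≤ L := by
    by_contra hlt
    have h1 : 2 ^ L ≤ 2 ^ 2 := Nat.pow_le_pow_right (by norm_num) (by omega)
    have h2 : 2 ^ L * a ≤ 4 * s := by
      calc 2 ^ L * a ≤ 2 ^ 2 * s := Nat.mul_le_mul h1 has
        _ = 4 * s := by norm_num
    omega
  -- a is large
  have ha2 : 2 * (L + 1) * (L + 5) < a := by
    obtain ⟨x, hx, hlt⟩ := hcon V (Finset.Subset.refl _) (by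
      calc a * N ≤ s * N := Nat.mul_le_mul_right _ has
        _ ≤ 128 * s * N := Nat.mul_le_mul_right _ (by omega))
    have h1 := dg_le_card Γ x V
    have h2 : 2 * (L + 1) * (L + 5) * N < a * N := lt_of_lt_of_le hlt (Nat.mul_le_mul_left _ h1)
    exact lt_of_mul_lt_mul_right h2 (Nat.zero_le _)
  have ha64 : 64 ≤ a := by
    have : 2 * 4 * 8 ≤ 2 * (L + 1) * (L + 5) := by
      apply Nat.mul_le_mul
      · omega
      · omega
    omega
  have ha2L : 2 * (L + 1) ≤ a := by
    have : 2 * (L + 1) * 1 ≤ 2 * (L + 1) * (L + 5) := Nat.mul_le_mul_left _ (by omega)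
    omega
  set T := (a - 1) / (L + 1) with hTdef
  have hT1 : (L + 1) * T < a := by
    have h1 : (L + 1) * T ≤ a - 1 := Nat.mul_div_le (a - 1) (L + 1)
    omega
  have hT2 : a ≤ 2 * ((L + 1) * T) := by
    have h1 : (L + 1) * T + (a - 1) % (L + 1) = a - 1 := Nat.div_add_mod (a - 1) (L + 1)
    have h2 : (a - 1) % (L + 1) < L + 1 := Nat.mod_lt (a - 1) (Nat.succ_pos L)
    omega
  set u := a * N / (64 * s) with hu
  have hu1 : 64 * s * u ≤ a * N := Nat.mul_div_le _ _
  have hu2 : a * N < 64 * s * (u + 1) := by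
    have := Nat.lt_mul_div_succ (a * N) (show 0 < 64 * s by omega)
    rwa [← hu] at this
  have hu0 : 1 ≤ u := by
    rw [hu, Nat.one_le_div_iff (by omega)]
    exact Nat.mul_le_mul ha64 hs
  have hu3 : a * N ≤ 128 * s * u := by
    have : 64 * s * (u + 1) ≤ 64 * s * (2 * u) := Nat.mul_le_mul_left _ (by omega)
    calc a * N ≤ 64 * s * (u + 1) := hu2.le
      _ ≤ 64 * s * (2 * u) := this
      _ = 128 * s * u := by ring
  set θ : ℝ := 2 * (L + 1) * (L + 5) / a with hθ
  have haR : (0 : ℝ) < a := by exact_mod_cast ha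
  have hsR : (0 : ℝ) < s := by exact_mod_cast hs0
  have hθ0 : 0 ≤ θ := by positivity
  have hθ1 : θ ≤ 1 := by
    rw [hθ, div_le_one haR]
    have : ((2 * (L + 1) * (L + 5) : ℕ) : ℝ) ≤ a := by exact_mod_cast ha2.le
    push_cast at this
    exact this
  have hkw := kw Γ V u θ hθ0 hθ1 (by
    intro A hA hAu
    have h1 : a * N ≤ 128 * s * A.card := by
      calc a * N ≤ 128 * s * u := hu3
        _ ≤ 128 * s * A.card := Nat.mul_le_mul_left _ hAu.le
    obtain ⟨x, hx, hlt⟩ := hcon A hA h1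
    refine ⟨x, hx, ?_⟩
    rw [hθ, div_mul_eq_mul_div, div_le_iff₀ haR]
    have : ((2 * (L + 1) * (L + 5) * A.card : ℕ) : ℝ) ≤ (a * dg Γ x A : ℕ) := by
      exact_mod_cast hlt.le
    push_cast at this
    linarith) T a V (Finset.Subset.refl _) (by
    -- N (1-θ)^T ≤ u
    have e1 : (1 - θ) ^ T ≤ Real.exp (-(((L + 5 : ℕ)) : ℝ)) := by
      calc (1 - θ) ^ T ≤ (Real.exp (-θ)) ^ T :=
            pow_le_pow_left₀ (by linarith) (Real.one_sub_le_exp_neg θ) T
        _ = Real.exp (T * (-θ)) := by rw [← Real.exp_nat_mul]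
        _ ≤ Real.exp (-(((L + 5 : ℕ)) : ℝ)) := by
            apply Real.exp_le_exp.mpr
            have h1 : (a : ℝ) ≤ 2 * ((L + 1) * T) := by exact_mod_cast hT2
            have h2 : ((L : ℝ) + 5) ≤ T * θ := by
              rw [hθ, mul_div_assoc', le_div_iff₀ haR]
              have h3 : (0 : ℝ) ≤ (L : ℝ) + 5 := by positivity
              nlinarith
            push_cast
            linarith
    have e2 := e1.trans (exp_neg_le_two_pow (L + 5))
    have e3 : (6 * s : ℝ) ≤ 2 ^ L * a := by exact_mod_cast hL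
    have e4 : ((2 : ℝ) ^ (L + 5))⁻¹ ≤ a / (128 * s) := by
      rw [inv_le_comm₀ (by positivity) (by positivity), inv_div, div_le_iff₀ haR]
      have : (2 : ℝ) ^ (L + 5) = 2 ^ L * 32 := by rw [pow_add]; norm_num
      rw [this]
      nlinarith
    have e5 : (a : ℝ) * N ≤ 128 * s * u := by exact_mod_cast hu3
    calc (V.card : ℝ) * (1 - θ) ^ T ≤ V.card * (a / (128 * s)) :=
          mul_le_mul_of_nonneg_left (e2.trans e4) (Nat.cast_nonneg _)
      _ = (a * N) / (128 * s) := by rw [hN]; ring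
      _ ≤ u := by
          rw [div_le_iff₀ (by positivity)]
          linarith)
  have hsup := supersat Γ V a s has hs h
  have hnum := num_contra a s N u T L ha has hs (by omega) hL hT1 hu1
  have := Nat.mul_le_mul_right ((N - a).choose (s - a)) hkw
  rw [← hN] at hsup this
  omega

end Pool.Agent.H89.RSL
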