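import Pool.Agent.H89.RSL.Defs
import Pool.Agent.H89.RSL.Sparse
import Pool.Agent.H89.RSL.Ext
import Pool.Agent.H89.RSL.Params
import Pool.Agent.H89.RSL.Forest

set_option autoImplicit false

namespace Pool.Agent.H89.RSL

open Finset

theorem Hered.mono_set {β : Type*} {Γ : SimpleGraph β} {V V' : Finset β} {C e : ℝ}
    (h : Hered Γ V C e) (hV : V' ⊆ V) : Hered Γ V' C e :=
  fun n S hS hc => h n S (hS.trans hV) hc

/-- the set of vertices of high degree, and the extension from it -/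
theorem high_step {N p : ℕ} (Γ : SimpleGraph (Fin N)) (V : Finset (Fin N))
    (H : SimpleGraph (Fin p)) (W : Finset (Fin p)) (m : ℕ) (hm1 : 1 ≤ m)
    (hm : H.edgeSet.ncard ≤ m) (hW : W.card ≤ 2 * m) (hV : 4 * m ≤ V.card) :
    Emb H Γ W V ∨ ∃ x ∈ V, ∃ Nb ⊆ V, (∀ y ∈ Nb, Γ.Adj x y) ∧ 0 < Nb.card ∧ ∃ W' ⊆ W,
      V.card * W'.card ≤ 8 * m * Nb.card ∧ (Emb H Γ W' V → Emb H Γ W V) := by
  classical
  have hVne : V.Nonempty := by
    rw [← Finset.card_pos]; omega
  obtain ⟨x, hx, hmax⟩ := V.exists_max_image (fun x => dg Γ x V) hVne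
  have : Nonempty (Fin N) := ⟨x⟩
  set Nb : Finset (Fin N) := V.filter (fun y => Γ.Adj x y) with hNb
  have hdx : dg Γ x V = Nb.card := rfl
  rcases Nat.eq_zero_or_pos Nb.card with h0 | hpos
  · left
    have hI : Indep Γ V := by
      intro a ha b hb hab
      have h1 : dg Γ a V ≤ 0 := by
        have := hmax a ha
        rw [hdx, h0] at this
        exact this
      have h2 : b ∈ V.filter (fun y => Γ.Adj a y) := Finset.mem_filter.2 ⟨hb, hab⟩
      have h3 : 0 < (V.filter (fun y => Γ.Adj a y)).card := Finset.card_pos.2 ⟨b, h2⟩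
      have h4 : dg Γ a V = (V.filter (fun y => Γ.Adj a y)).card := rfl
      omega
    exact indep_emb hI (by omega)
  · right
    refine ⟨x, hx, Nb, Finset.filter_subset _ _, fun y hy => (Finset.mem_filter.1 hy).2, hpos, ?_⟩
    set D0 : ℕ := V.card / (4 * Nb.card) with hD0
    refine ⟨W.filter (fun v => D0 < dg H v W), Finset.filter_subset _ _, ?_, ?_⟩
    · have h1 : (D0 + 1) * (W.filter (fun v => D0 < dg H v W)).card ≤ 2 * m := by
        refine card_high H m (D0 + 1) hm _ ?_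
        intro v hv
        have h2 := (Finset.mem_filter.1 hv).2
        have h3 : dg H v W ≤ dg H v univ := by
          unfold dg
          exact Finset.card_le_card (Finset.filter_subset_filter _ (Finset.subset_univ _))
        omega
      have h2 : V.card < (D0 + 1) * (4 * Nb.card) := by
        have := Nat.lt_div_mul_add (a := V.card) (b := 4 * Nb.card) (by omega)
        rw [← hD0] at this
        nlinarith
      calc V.card * (W.filter (fun v => D0 < dg H v W)).card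
          ≤ ((D0 + 1) * (4 * Nb.card)) * (W.filter (fun v => D0 < dg H v W)).card :=
            Nat.mul_le_mul_right _ h2.le
        _ = 4 * Nb.card * ((D0 + 1) * (W.filter (fun v => D0 < dg H v W)).card) := by ring
        _ ≤ 4 * Nb.card * (2 * m) := Nat.mul_le_mul_left _ h1
        _ = 8 * m * Nb.card := by ring
    · intro h
      refine ext_emb (Finset.filter_subset _ _) h D0 Nb.card ?_ ?_ ?_
      · intro v hv hv'
        by_contra hcon
        exact hv' (Finset.mem_filter.2 ⟨hv, by omega⟩)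
      · intro y hy
        rw [← hdx]
        exact hmax y hy
      · have h3 : D0 * (4 * Nb.card) ≤ V.card := Nat.div_mul_le_self _ _
        have h4 : D0 * (4 * Nb.card) = 4 * (D0 * Nb.card) := by ring
        omega

/-- embedding of a small set through the sparse set lemma -/
theorem sparse_emb (C η : ℝ) (hC : 1 ≤ C) (hη : 0 < η) (hη1 : η ≤ 1) :
    ∃ B : ℝ, 1 ≤ B ∧ ∀ (N : ℕ) (Γ : SimpleGraph (Fin N)) (V : Finset (Fin N)), Hered Γ V C 2 →
      ∀ (p m : ℕ) (H : SimpleGraph (Fin p)) (W : Finset (Fin p)), 1 ≤ m → H.edgeSet.ncard ≤ m →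
        W.card ≤ 2 * m → B * (m : ℝ) ^ (1 + η / 2) ≤ V.card →
        B * (m : ℝ) ^ ((1 + η) / 2) * W.card ≤ V.card → Emb H Γ W V := by
  obtain ⟨D₀, hD₀⟩ := params C 2 η hC (by norm_num) le_rfl hη hη1
  refine ⟨512 + C * (D₀ : ℝ) ^ 4, ?_, ?_⟩
  · have : 0 ≤ C * (D₀ : ℝ) ^ 4 := by positivity
    linarith
  intro N Γ V hH p m H W hm1 hm hW hV1 hV2
  have hm1' : (1 : ℝ) ≤ m := by exact_mod_cast hm1
  have hm0 : (0 : ℝ) < m := by linarith
  have hCD : 0 ≤ C * (D₀ : ℝ) ^ 4 := by positivity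
  have hone : (1 : ℝ) ≤ (m : ℝ) ^ (1 + η / 2) := Real.one_le_rpow hm1' (by positivity)
  have hVpos : (0 : ℝ) < V.card := by
    refine lt_of_lt_of_le ?_ hV1
    positivity
  have hVpos' : 0 < V.card := by exact_mod_cast hVpos
  obtain ⟨x0, hx0⟩ := Finset.card_pos.1 hVpos'
  have : Nonempty (Fin N) := ⟨x0⟩
  set d := Nat.sqrt (2 * m) with hd
  have hd1 : 2 * m < (d + 1) ^ 2 := Nat.lt_succ_sqrt' _
  have hd2 : d ^ 2 ≤ 2 * m := Nat.sqrt_le' _
  have hdpos : 0 < d := Nat.sqrt_pos.2 (by omega)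
  by_cases hlt : d < D₀
  · have h1 : 2 * m ≤ D₀ ^ 2 := by
      have : (d + 1) ^ 2 ≤ D₀ ^ 2 := Nat.pow_le_pow_left hlt 2
      omega
    have h2 : (W.card : ℝ) ≤ (D₀ : ℝ) ^ 2 := by exact_mod_cast hW.trans h1
    have h3 : C * (W.card : ℝ) ^ (2 : ℝ) ≤ V.card := by
      have h4 : (W.card : ℝ) ^ (2 : ℝ) ≤ (D₀ : ℝ) ^ 4 := by
        rw [Real.rpow_two]
        calc (W.card : ℝ) ^ 2 ≤ ((D₀ : ℝ) ^ 2) ^ 2 := by
              apply pow_le_pow_left₀ (by positivity) h2
          _ = (D₀ : ℝ) ^ 4 := by ring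
      calc C * (W.card : ℝ) ^ (2 : ℝ) ≤ C * (D₀ : ℝ) ^ 4 := by
            apply mul_le_mul_of_nonneg_left h4 (by linarith)
        _ ≤ 512 + C * (D₀ : ℝ) ^ 4 := by linarith
        _ ≤ (512 + C * (D₀ : ℝ) ^ 4) * (m : ℝ) ^ (1 + η / 2) := by
            apply le_mul_of_one_le_right (by positivity) hone
        _ ≤ V.card := hV1
    obtain ⟨I, hIV, hIc, hI⟩ := hH W.card V (Finset.Subset.refl _) h3
    exact (indep_emb hI (by omega)).mono hIV
  · obtain ⟨a, s, L, ha, has, hL, hs1, hs2, hs3, hs4, -⟩ := hD₀ d (by omega)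
    have hd2' : (d : ℝ) ^ 2 ≤ 2 * m := by exact_mod_cast hd2
    have hd0 : (0 : ℝ) < d := by exact_mod_cast hdpos
    -- bound `d ^ (2 * y) ≤ (2 m) ^ y`
    have hpow : ∀ y : ℝ, 0 ≤ y → (d : ℝ) ^ (2 * y) ≤ (2 : ℝ) ^ y * (m : ℝ) ^ y := by
      intro y hy
      rw [Real.rpow_mul hd0.le, ← Real.mul_rpow (by norm_num) hm0.le, Real.rpow_two]
      exact Real.rpow_le_rpow (by positivity) hd2' hy
    have hsV : s ≤ V.card := by
      have h1 : (s : ℝ) ≤ V.card := by
        calc (s : ℝ) ≤ (d : ℝ) ^ (2 + η) := hs3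
          _ = (d : ℝ) ^ (2 * (1 + η / 2)) := by ring_nf
          _ ≤ (2 : ℝ) ^ (1 + η / 2) * (m : ℝ) ^ (1 + η / 2) := hpow _ (by positivity)
          _ ≤ (2 : ℝ) ^ (2 : ℝ) * (m : ℝ) ^ (1 + η / 2) := by
              apply mul_le_mul_of_nonneg_right _ (by positivity)
              exact Real.rpow_le_rpow_of_exponent_le (by norm_num) (by linarith)
          _ ≤ (512 + C * (D₀ : ℝ) ^ 4) * (m : ℝ) ^ (1 + η / 2) := by
              apply mul_le_mul_of_nonneg_right _ (by positivity)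
              rw [Real.rpow_two]; linarith
          _ ≤ V.card := hV1
      exact_mod_cast h1
    obtain ⟨U, hUV, hU1, hU2⟩ := sparse_set Γ V a s L ha has hsV hL (by
      intro S hS hSc
      exact hH a S hS (by rw [hSc]; exact hs1))
    have ha0 : (0 : ℝ) < a := by exact_mod_cast ha
    -- `|V| ≤ 256 m^((1+η)/2) |U|`
    have hU3 : (V.card : ℝ) ≤ 256 * (m : ℝ) ^ ((1 + η) / 2) * U.card := by
      have h1 : (a : ℝ) * V.card ≤ 128 * s * U.card := by exact_mod_cast hU1
      have h2 : (s : ℝ) ≤ a * (2 * (m : ℝ) ^ ((1 + η) / 2)) := by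
        calc (s : ℝ) ≤ a * (d : ℝ) ^ (2 - 1 + η) := hs4
          _ = a * (d : ℝ) ^ (2 * ((1 + η) / 2)) := by ring_nf
          _ ≤ a * ((2 : ℝ) ^ ((1 + η) / 2) * (m : ℝ) ^ ((1 + η) / 2)) := by
              apply mul_le_mul_of_nonneg_left (hpow _ (by positivity)) ha0.le
          _ ≤ a * ((2 : ℝ) ^ (1 : ℝ) * (m : ℝ) ^ ((1 + η) / 2)) := by
              apply mul_le_mul_of_nonneg_left _ ha0.le
              apply mul_le_mul_of_nonneg_right _ (by positivity)
              exact Real.rpow_le_rpow_of_exponent_le (by norm_num) (by linarith)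
          _ = a * (2 * (m : ℝ) ^ ((1 + η) / 2)) := by rw [Real.rpow_one]
      have h3 : (a : ℝ) * V.card ≤ a * (256 * (m : ℝ) ^ ((1 + η) / 2) * U.card) := by
        calc (a : ℝ) * V.card ≤ 128 * s * U.card := h1
          _ ≤ 128 * (a * (2 * (m : ℝ) ^ ((1 + η) / 2))) * U.card := by
              apply mul_le_mul_of_nonneg_right _ (by positivity)
              linarith
          _ = a * (256 * (m : ℝ) ^ ((1 + η) / 2) * U.card) := by ring
      exact le_of_mul_le_mul_left h3 ha0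
    have hWU : 2 * W.card ≤ U.card := by
      have hpos : (0 : ℝ) < (m : ℝ) ^ ((1 + η) / 2) := by positivity
      have h1 : (512 : ℝ) * (m : ℝ) ^ ((1 + η) / 2) * W.card ≤
          256 * (m : ℝ) ^ ((1 + η) / 2) * U.card := by
        refine le_trans ?_ (hV2.trans hU3)
        apply mul_le_mul_of_nonneg_right _ (by positivity)
        apply mul_le_mul_of_nonneg_right _ hpos.le
        linarith
      have h2 : (2 * W.card : ℝ) ≤ U.card := by
        have h3 : 256 * (m : ℝ) ^ ((1 + η) / 2) * (2 * W.card) ≤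
          256 * (m : ℝ) ^ ((1 + η) / 2) * U.card := by linarith
        exact le_of_mul_le_mul_left h3 (by positivity)
      exact_mod_cast h2
    have hdeg : ∀ y ∈ U, dg Γ y U ≤ U.card / (2 * d) := by
      intro y hy
      rw [Nat.le_div_iff_mul_le (by omega)]
      have h1 := hU2 y hy
      have h2 : a * (dg Γ y U * (2 * d)) ≤ a * U.card := by
        calc a * (dg Γ y U * (2 * d)) = (a * dg Γ y U) * (2 * d) := by ring
          _ ≤ (2 * (L + 1) * (L + 5) * U.card) * (2 * d) := Nat.mul_le_mul_right _ h1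
          _ = (4 * d * (L + 1) * (L + 5)) * U.card := by ring
          _ ≤ a * U.card := Nat.mul_le_mul_right _ hs2
      exact Nat.le_of_mul_le_mul_left h2 ha
    refine (deg_emb d (U.card / (2 * d)) ?_ hdeg ?_).mono hUV
    · intro S hS hSne
      exact edges_degenerate H m d hm hd1 S hSne
    · have h1 : U.card / (2 * d) * (2 * d) ≤ U.card := Nat.div_mul_le_self _ _
      have h2 : U.card / (2 * d) * (2 * d) = 2 * (d * (U.card / (2 * d))) := by ring
      omega

/-- the case of one vertex plus a forest -/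
theorem tau_base (k : ℕ) (C ε : ℝ) (hε : 0 < ε) :
    ∃ B : ℝ, 1 ≤ B ∧ ∀ (G : SimpleGraph (Fin k)) (A T : Finset (Fin k)), T ⊆ A → T.card ≤ 1 →
      (∀ S ⊆ A \ T, S.Nonempty → ∃ v ∈ S, dg G v S ≤ 1) →
      ∀ (N : ℕ) (Γ : SimpleGraph (Fin N)) (V : Finset (Fin N)), Hered Γ V C 2 → ¬ Cpy G Γ A V →
      ∀ (p m : ℕ) (H : SimpleGraph (Fin p)) (W : Finset (Fin p)), 1 ≤ m → H.edgeSet.ncard ≤ m →
        W.card ≤ 2 * m → B * (m : ℝ) ^ (3 / 2 - (1 / 2 : ℝ) ^ 1 + ε) ≤ V.card →
          Emb H Γ W V := by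
  classical
  refine ⟨8 * (k + 1), by
    have : (0 : ℝ) ≤ k := by positivity
    linarith, ?_⟩
  intro G A T hTA hT hF N Γ V _ hG p m H W hm1 hm hW hV
  have hm1' : (1 : ℝ) ≤ m := by exact_mod_cast hm1
  have hV' : 8 * (k + 1) * m ≤ V.card := by
    have h1 : (m : ℝ) ≤ (m : ℝ) ^ (3 / 2 - (1 / 2 : ℝ) ^ 1 + ε) := by
      conv_lhs => rw [← Real.rpow_one (m : ℝ)]
      apply Real.rpow_le_rpow_of_exponent_le hm1'
      norm_num
      linarith
    have h2 : (8 * (k + 1) * m : ℝ) ≤ V.card :=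
      (mul_le_mul_of_nonneg_left h1 (by positivity)).trans hV
    exact_mod_cast h2
  have hk : 0 < (k + 1) := Nat.succ_pos k
  have h4m : 4 * m ≤ V.card := by
    refine le_trans ?_ hV'
    nlinarith [Nat.zero_le (k * m)]
  have hVne : V.Nonempty := by
    rw [← Finset.card_pos]; omega
  obtain ⟨x0, hx0⟩ := hVne
  have : Nonempty (Fin N) := ⟨x0⟩
  rcases Nat.lt_or_ge T.card 1 with h0 | h1
  · have hTe : T = ∅ := by
      rw [← Finset.card_eq_zero]; omega
    subst hTe
    rw [Finset.sdiff_empty] at hF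
    obtain ⟨I, hIV, hI, hIc⟩ := forest_indep G Γ A V hF hG
    have hA : A.card ≤ k := by simpa using Finset.card_le_univ A
    have h2 : V.card ≤ (k + 1) * I.card :=
      hIc.trans (Nat.mul_le_mul_right _ (by omega))
    have h3 : 8 * m ≤ I.card := by
      have h4 : (k + 1) * (8 * m) ≤ (k + 1) * I.card := by
        refine le_trans (le_of_eq ?_) (hV'.trans h2)
        ring
      exact Nat.le_of_mul_le_mul_left h4 hk
    exact (indep_emb hI (by omega)).mono hIV
  · obtain ⟨v, hv⟩ : T.Nonempty := by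
      rw [← Finset.card_pos]; omega
    have hTv : T = {v} := by
      rw [Finset.eq_singleton_iff_unique_mem]
      exact ⟨hv, fun y hy => Finset.card_le_one.1 hT y hy v hv⟩
    subst hTv
    rcases high_step Γ V H W m hm1 hm hW h4m with h | ⟨x, hx, Nb, hNb, hadj, hpos, W', hW', hc, hext⟩
    · exact h
    · apply hext
      have hG' := nbr_step G Γ A V Nb x hx hNb hadj v hG
      obtain ⟨I, hIN, hI, hIc⟩ := forest_indep G Γ (A.erase v) Nb (by
        intro S hS hSne
        refine hF S ?_ hSne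
        intro y hy
        have h2 := Finset.mem_erase.1 (hS hy)
        rw [Finset.mem_sdiff, Finset.mem_singleton]
        exact ⟨h2.2, h2.1⟩) hG'
      have hA : (A.erase v).card ≤ k := by simpa using Finset.card_le_univ (A.erase v)
      have h2 : Nb.card ≤ (k + 1) * I.card :=
        hIc.trans (Nat.mul_le_mul_right _ (by omega))
      have h3 : V.card * W'.card ≤ V.card * I.card := by
        calc V.card * W'.card ≤ 8 * m * Nb.card := hc
          _ ≤ 8 * m * ((k + 1) * I.card) := Nat.mul_le_mul_left _ h2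
          _ = 8 * (k + 1) * m * I.card := by ring
          _ ≤ V.card * I.card := Nat.mul_le_mul_right _ hV'
      have h4 : W'.card ≤ I.card := Nat.le_of_mul_le_mul_left h3 (by omega)
      exact (indep_emb hI h4).mono (hIN.trans hNb)

/-- the induction step -/
theorem tau_step (C : ℝ) (hC : 1 ≤ C) (k t : ℕ) (ht : 1 ≤ t) (ε : ℝ) (hε : 0 < ε)
    (ih : ∃ B : ℝ, 1 ≤ B ∧ ∀ (G : SimpleGraph (Fin k)) (A T : Finset (Fin k)), T ⊆ A →
      T.card ≤ t → (∀ S ⊆ A \ T, S.Nonempty → ∃ v ∈ S, dg G v S ≤ 1) →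
      ∀ (N : ℕ) (Γ : SimpleGraph (Fin N)) (V : Finset (Fin N)), Hered Γ V C 2 → ¬ Cpy G Γ A V →
      ∀ (p m : ℕ) (H : SimpleGraph (Fin p)) (W : Finset (Fin p)), 1 ≤ m → H.edgeSet.ncard ≤ m →
        W.card ≤ 2 * m → B * (m : ℝ) ^ (3 / 2 - (1 / 2 : ℝ) ^ t + ε) ≤ V.card →
          Emb H Γ W V) :
    ∃ B : ℝ, 1 ≤ B ∧ ∀ (G : SimpleGraph (Fin k)) (A T : Finset (Fin k)), T ⊆ A →
      T.card ≤ t + 1 → (∀ S ⊆ A \ T, S.Nonempty → ∃ v ∈ S, dg G v S ≤ 1) →
      ∀ (N : ℕ) (Γ : SimpleGraph (Fin N)) (V : Finset (Fin N)), Hered Γ V C 2 → ¬ Cpy G Γ A V →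
      ∀ (p m : ℕ) (H : SimpleGraph (Fin p)) (W : Finset (Fin p)), 1 ≤ m → H.edgeSet.ncard ≤ m →
        W.card ≤ 2 * m → B * (m : ℝ) ^ (3 / 2 - (1 / 2 : ℝ) ^ (t + 1) + ε) ≤ V.card →
          Emb H Γ W V := by
  classical
  obtain ⟨B', hB', ih⟩ := ih
  set η : ℝ := min 1 ε with hηdef
  have hη : 0 < η := lt_min one_pos hε
  have hη1 : η ≤ 1 := min_le_left _ _
  have hηε : η ≤ ε := min_le_right _ _
  obtain ⟨B₁, hB₁, hsp⟩ := sparse_emb C η hC hη hη1
  have hBB : 1 ≤ B' * B₁ := by nlinarith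
  have hB'B : B' ≤ 8 * (B' * B₁) := by nlinarith
  have hB₁B : B₁ ≤ 8 * (B' * B₁) := by nlinarith
  refine ⟨8 * (B' * B₁), by linarith, ?_⟩
  intro G A T hTA hT hF N Γ V hH hG p m H W hm1 hm hW hV
  have hm1' : (1 : ℝ) ≤ m := by exact_mod_cast hm1
  have hm0 : (0 : ℝ) < m := by linarith
  set e' : ℝ := 3 / 2 - (1 / 2 : ℝ) ^ t + ε with he'
  set e : ℝ := 3 / 2 - (1 / 2 : ℝ) ^ (t + 1) + ε with he
  have hq : (1 / 2 : ℝ) ^ (t + 1) = (1 / 2 : ℝ) ^ t / 2 := by rw [pow_succ]; ring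
  have hqpos : (0 : ℝ) < (1 / 2 : ℝ) ^ t := by positivity
  have hqle : (1 / 2 : ℝ) ^ t ≤ 1 / 2 := by
    calc (1 / 2 : ℝ) ^ t ≤ (1 / 2 : ℝ) ^ 1 := pow_le_pow_of_le_one (by norm_num) (by norm_num) ht
      _ = 1 / 2 := by norm_num
  have hee' : e' ≤ e := by rw [he, he', hq]; linarith
  have he1 : 1 + η / 2 ≤ e := by rw [he, hq]; linarith
  have h2e : (1 + η) / 2 + 1 + e' ≤ 2 * e := by rw [he, he', hq]; linarith
  have hmono : ∀ {y z : ℝ}, y ≤ z → (m : ℝ) ^ y ≤ (m : ℝ) ^ z := fun h =>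
    Real.rpow_le_rpow_of_exponent_le hm1' h
  have hV4 : 4 * m ≤ V.card := by
    have h1 : (m : ℝ) ≤ (m : ℝ) ^ e := by
      conv_lhs => rw [← Real.rpow_one (m : ℝ)]
      exact hmono (by linarith)
    have h2 : (4 * m : ℝ) ≤ V.card := by
      refine le_trans ?_ hV
      have h3 : 0 ≤ (m : ℝ) ^ e := by positivity
      nlinarith
    exact_mod_cast h2
  rcases Nat.lt_or_ge t T.card with hlt | hge
  · obtain ⟨v, hv⟩ : T.Nonempty := by
      rw [← Finset.card_pos]; omega
    rcases high_step Γ V H W m hm1 hm hW hV4 with h | ⟨x, hx, Nb, hNb, hadj, hpos, W', hW', hc, hext⟩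
    · exact h
    · apply hext
      have hWc : W'.card ≤ 2 * m := (Finset.card_le_card hW').trans hW
      by_cases hbig : B' * (m : ℝ) ^ e' ≤ Nb.card
      · have hG' := nbr_step G Γ A V Nb x hx hNb hadj v hG
        refine (ih G (A.erase v) (T.erase v) (Finset.erase_subset_erase _ hTA) ?_ ?_ N Γ Nb
          (hH.mono_set hNb) hG' p m H W' hm1 hm hWc hbig).mono hNb
        · rw [Finset.card_erase_of_mem hv]; omega
        · intro S hS hSne
          refine hF S ?_ hSne
          intro y hy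
          have h2 := Finset.mem_sdiff.1 (hS hy)
          have h3 := Finset.mem_erase.1 h2.1
          rw [Finset.mem_sdiff]
          exact ⟨h3.2, fun hyT => h2.2 (Finset.mem_erase.2 ⟨h3.1, hyT⟩)⟩
      · push Not at hbig
        have hVpos : (0 : ℝ) < V.card := by
          have : 0 < V.card := by omega
          exact_mod_cast this
        refine hsp N Γ V hH p m H W' hm1 hm hWc ?_ ?_
        · refine le_trans ?_ hV
          exact mul_le_mul hB₁B (hmono he1) (by positivity) (by linarith)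
        · have h1 : (V.card : ℝ) * W'.card ≤ 8 * m * (B' * (m : ℝ) ^ e') := by
            have h2 : (V.card : ℝ) * W'.card ≤ 8 * m * Nb.card := by exact_mod_cast hc
            refine h2.trans ?_
            apply mul_le_mul_of_nonneg_left hbig.le (by positivity)
          have h2 : B₁ * (m : ℝ) ^ ((1 + η) / 2) * W'.card * V.card ≤ V.card * V.card := by
            calc B₁ * (m : ℝ) ^ ((1 + η) / 2) * W'.card * V.card
                = B₁ * (m : ℝ) ^ ((1 + η) / 2) * (V.card * W'.card) := by ring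
              _ ≤ B₁ * (m : ℝ) ^ ((1 + η) / 2) * (8 * m * (B' * (m : ℝ) ^ e')) := by
                  apply mul_le_mul_of_nonneg_left h1 (by positivity)
              _ = 8 * (B' * B₁) * ((m : ℝ) ^ ((1 + η) / 2) * (m : ℝ) ^ (1 : ℝ) * (m : ℝ) ^ e') := by
                  rw [Real.rpow_one]; ring
              _ = 8 * (B' * B₁) * (m : ℝ) ^ ((1 + η) / 2 + 1 + e') := by
                  rw [Real.rpow_add hm0 ((1 + η) / 2 + 1) e', Real.rpow_add hm0 ((1 + η) / 2) 1]
              _ ≤ (8 * (B' * B₁)) ^ 2 * (m : ℝ) ^ (2 * e) := by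
                  apply mul_le_mul _ (hmono h2e) (by positivity) (by positivity)
                  nlinarith
              _ = (8 * (B' * B₁) * (m : ℝ) ^ e) * (8 * (B' * B₁) * (m : ℝ) ^ e) := by
                  rw [two_mul, Real.rpow_add hm0]; ring
              _ ≤ V.card * V.card := mul_le_mul hV hV (by positivity) hVpos.le
          exact le_of_mul_le_mul_right h2 hVpos
  · refine ih G A T hTA hge hF N Γ V hH hG p m H W hm1 hm hW ?_
    refine le_trans ?_ hV
    exact mul_le_mul hB'B (hmono hee') (by positivity) (by linarith)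

theorem tau_ind (C : ℝ) (hC : 1 ≤ C) (k τ : ℕ) (hτ : 1 ≤ τ) (ε : ℝ) (hε : 0 < ε) :
    ∃ B : ℝ, 1 ≤ B ∧ ∀ (G : SimpleGraph (Fin k)) (A T : Finset (Fin k)), T ⊆ A → T.card ≤ τ →
      (∀ S ⊆ A \ T, S.Nonempty → ∃ v ∈ S, dg G v S ≤ 1) →
      ∀ (N : ℕ) (Γ : SimpleGraph (Fin N)) (V : Finset (Fin N)), Hered Γ V C 2 → ¬ Cpy G Γ A V →
      ∀ (p m : ℕ) (H : SimpleGraph (Fin p)) (W : Finset (Fin p)), 1 ≤ m → H.edgeSet.ncard ≤ m →
        W.card ≤ 2 * m → B * (m : ℝ) ^ (3 / 2 - (1 / 2 : ℝ) ^ τ + ε) ≤ V.card → Emb H Γ W V := by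
  induction τ, hτ using Nat.le_induction with
  | base => exact tau_base k C ε hε
  | succ t ht ih => exact tau_step C hC k t ht ε hε ih

end Pool.Agent.H89.RSL
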