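import Pool.Agent.H89.RSL.Defs

set_option autoImplicit false

namespace Pool.Agent.H89.RSL

open Finset

lemma acyclic_deg {V : Type*} [Fintype V] [Nonempty V] (G : SimpleGraph V) (h : G.IsAcyclic) :
    ∃ v, ∀ a b, G.Adj v a → G.Adj v b → a = b := by
  classical
  obtain ⟨v0⟩ := ‹Nonempty V›
  set c := G.connectedComponentMk v0 with hc
  have htree := h.isTree_connectedComponent c
  have hmem : ∀ v ∈ c.supp, ∀ a, G.Adj v a → a ∈ c.supp := by
    intro v hv a ha
    rw [SimpleGraph.ConnectedComponent.mem_supp_iff] at hv ⊢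
    rw [← hv]
    exact (SimpleGraph.ConnectedComponent.connectedComponentMk_eq_of_adj ha).symm
  have hv0 : v0 ∈ c.supp := by
    rw [SimpleGraph.ConnectedComponent.mem_supp_iff]
  by_cases hs : Nontrivial c.supp
  · obtain ⟨v, hv⟩ := htree.exists_vert_degree_one_of_nontrivial
    refine ⟨v.1, ?_⟩
    intro a b hva hvb
    have ha := hmem v.1 v.2 a hva
    have hb := hmem v.1 v.2 b hvb
    rw [SimpleGraph.degree, Finset.card_eq_one] at hv
    obtain ⟨w, hw⟩ := hv
    have h1 : (⟨a, ha⟩ : c.supp) ∈ ({w} : Finset c.supp) := by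
      rw [← hw, SimpleGraph.mem_neighborFinset]
      exact hva
    have h2 : (⟨b, hb⟩ : c.supp) ∈ ({w} : Finset c.supp) := by
      rw [← hw, SimpleGraph.mem_neighborFinset]
      exact hvb
    rw [Finset.mem_singleton] at h1 h2
    have := h1.trans h2.symm
    exact congrArg Subtype.val this
  · rw [not_nontrivial_iff_subsingleton] at hs
    refine ⟨v0, ?_⟩
    intro a b hva _
    exfalso
    have ha := hmem v0 hv0 a hva
    have := hs.elim (⟨v0, hv0⟩ : c.supp) ⟨a, ha⟩
    exact hva.ne (congrArg Subtype.val this)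

lemma forest_cond {k : ℕ} (G : SimpleGraph (Fin k)) (T : Finset (Fin k))
    (h : (G.induce ((T : Set (Fin k))ᶜ)).IsAcyclic) (S : Finset (Fin k)) (hS : S ⊆ univ \ T)
    (hne : S.Nonempty) : ∃ v ∈ S, dg G v S ≤ 1 := by
  classical
  haveI : Nonempty S := hne.to_subtype
  have hST : ∀ x ∈ S, x ∉ T := fun x hx => (Finset.mem_sdiff.mp (hS hx)).2
  let f : (G.comap (fun x : S => (x : Fin k))) →g (G.induce ((T : Set (Fin k))ᶜ)) :=
    ⟨fun x => ⟨x.1, by simpa using hST x.1 x.2⟩, fun {a b} hab => hab⟩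
  have hac : (G.comap (fun x : S => (x : Fin k))).IsAcyclic := by
    apply h.comap f
    intro a b hab
    have := congrArg Subtype.val hab
    exact Subtype.ext this
  obtain ⟨v, hv⟩ := acyclic_deg _ hac
  refine ⟨v.1, v.2, ?_⟩
  unfold dg
  rw [Finset.card_le_one]
  intro a ha b hb
  rw [Finset.mem_filter] at ha hb
  have := hv ⟨a, ha.1⟩ ⟨b, hb.1⟩ ha.2 hb.2
  exact congrArg Subtype.val this

end Pool.Agent.H89.RSL
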