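import Mathlib

set_option autoImplicit false

namespace Pool.Agent.H89.RSL

open Finset

/-- number of neighbours of `x` in the finite set `A` -/
noncomputable def dg {β : Type*} (Γ : SimpleGraph β) (x : β) (A : Finset β) : ℕ :=
  by classical exact (A.filter (fun y => Γ.Adj x y)).card

/-- independent set -/
def Indep {β : Type*} (Γ : SimpleGraph β) (I : Finset β) : Prop :=
  ∀ x ∈ I, ∀ y ∈ I, ¬ Γ.Adj x y

/-- number of independent `b`-subsets of `A` -/
noncomputable def ind {β : Type*} (Γ : SimpleGraph β) (A : Finset β) (b : ℕ) : ℕ :=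
  by classical exact ((A.powersetCard b).filter (fun I => Indep Γ I)).card

/-- the graph `H`, restricted to `W`, embeds in the complement of `Γ` inside `U` -/
def Emb {α β : Type*} (H : SimpleGraph α) (Γ : SimpleGraph β) (W : Finset α) (U : Finset β) :
    Prop :=
  ∃ f : α → β, (∀ a ∈ W, f a ∈ U) ∧ Set.InjOn f (W : Set α) ∧
    ∀ a ∈ W, ∀ b ∈ W, H.Adj a b → ¬ Γ.Adj (f a) (f b)

/-- the graph `G`, restricted to `A`, embeds in `Γ` inside `V` -/
def Cpy {κ β : Type*} (G : SimpleGraph κ) (Γ : SimpleGraph β) (A : Finset κ) (V : Finset β) :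
    Prop :=
  ∃ f : κ → β, (∀ a ∈ A, f a ∈ V) ∧ Set.InjOn f (A : Set κ) ∧
    ∀ a ∈ A, ∀ b ∈ A, G.Adj a b → Γ.Adj (f a) (f b)

/-- hereditary independence: every subset of `V` with at least `C n^e` elements contains an
independent set with `n` elements -/
def Hered {β : Type*} (Γ : SimpleGraph β) (V : Finset β) (C e : ℝ) : Prop :=
  ∀ n : ℕ, ∀ S ⊆ V, C * (n : ℝ) ^ e ≤ S.card → ∃ I ⊆ S, I.card = n ∧ Indep Γ I

end Pool.Agent.H89.RSL
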