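import Pool.Agent.H89.RSL.Defs
import Pool.Agent.H89.RSL.Sparse
import Pool.Agent.H89.RSL.Ext
import Pool.Agent.H89.RSL.Params

set_option autoImplicit false

namespace Pool.Agent.H89.RSL

open Finset

theorem Hered.mono_set5 {β : Type*} {Γ : SimpleGraph β} {V V' : Finset β} {C e : ℝ}
    (h : Hered Γ V C e) (hV : V' ⊆ V) : Hered Γ V' C e :=
  fun n S hS hc => h n S (hS.trans hV) hc

/-- one application of the sparse set lemma together with a greedy extension -/
theorem five_step {N : ℕ} (Γ : SimpleGraph (Fin N)) (V : Finset (Fin N)) (C e : ℝ)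
    (hH : Hered Γ V C e) (E a s L : ℕ) (hE : 0 < E) (ha : 0 < a) (has : a ≤ s)
    (hL : 6 * s ≤ 2 ^ L * a) (hCs : C * (a : ℝ) ^ e ≤ s)
    (haE : 4 * E * (L + 1) * (L + 5) ≤ a) (hsV : s ≤ V.card) :
    ∃ U ⊆ V, a * V.card ≤ 128 * s * U.card ∧ ∀ (p : ℕ) (H : SimpleGraph (Fin p))
      (W W' : Finset (Fin p)), W ⊆ W' → Emb H Γ W U → (∀ v ∈ W', v ∉ W → dg H v W' ≤ E) →
      2 * W'.card ≤ U.card → Emb H Γ W' V := by
  obtain ⟨U, hUV, hU1, hU2⟩ := sparse_set Γ V a s L ha has hsV hL (by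
      intro S hS hSc
      exact hH a S hS (by rw [hSc]; exact hCs))
  refine ⟨U, hUV, hU1, ?_⟩
  intro p H W W' hWW hemb hdegH hc
  refine (ext_emb hWW hemb E (U.card / (2 * E)) hdegH ?_ ?_).mono hUV
  · intro y hy
    rw [Nat.le_div_iff_mul_le (by omega)]
    have h1 := hU2 y hy
    have h2 : a * (dg Γ y U * (2 * E)) ≤ a * U.card := by
      calc a * (dg Γ y U * (2 * E)) = (a * dg Γ y U) * (2 * E) := by ring
        _ ≤ (2 * (L + 1) * (L + 5) * U.card) * (2 * E) := Nat.mul_le_mul_right _ h1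
        _ = (4 * E * (L + 1) * (L + 5)) * U.card := by ring
        _ ≤ a * U.card := Nat.mul_le_mul_right _ haE
    exact Nat.le_of_mul_le_mul_left h2 ha
  · have h1 : U.card / (2 * E) * (2 * E) ≤ U.card := Nat.div_mul_le_self _ _
    have h2 : U.card / (2 * E) * (2 * E) = 2 * (E * (U.card / (2 * E))) := by ring
    omega

/-- the vertices of degree at least `D` -/
noncomputable def hi {p : ℕ} (H : SimpleGraph (Fin p)) (D : ℕ) : Finset (Fin p) :=
  univ.filter (fun v => D ≤ dg H v univ)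

theorem hi_card {p : ℕ} (H : SimpleGraph (Fin p)) (m D : ℕ) (hm : H.edgeSet.ncard ≤ m) :
    D * (hi H D).card ≤ 2 * m :=
  card_high H m D hm _ (fun _ hv => (Finset.mem_filter.1 hv).2)

theorem hi_mono {p : ℕ} (H : SimpleGraph (Fin p)) {D E : ℕ} (h : D ≤ E) : hi H E ⊆ hi H D := by
  intro v hv
  exact Finset.mem_filter.2 ⟨Finset.mem_univ _, h.trans (Finset.mem_filter.1 hv).2⟩

theorem dg_hi {p : ℕ} (H : SimpleGraph (Fin p)) (E : ℕ) (W : Finset (Fin p)) (v : Fin p)
    (hv : v ∉ hi H E) : dg H v W ≤ E := by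
  classical
  have h1 : ¬ E ≤ dg H v univ := fun h => hv (Finset.mem_filter.2 ⟨Finset.mem_univ _, h⟩)
  have h3 : dg H v W ≤ dg H v univ := by
    unfold dg
    exact Finset.card_le_card (Finset.filter_subset_filter _ (Finset.subset_univ _))
  omega

/-- the main recursion -/
theorem five_claim (C x : ℝ) (hC : 1 ≤ C) (hx : 0 < x) (hx4 : x < 1 / 4) :
    ∃ D₁ : ℕ, 2 ≤ D₁ ∧ ∀ (N p m : ℕ) (F : SimpleGraph (Fin N)) (H : SimpleGraph (Fin p)),
      H.edgeSet.ncard ≤ m → 1 ≤ m → ∀ D : ℕ, D₁ ≤ D → ∀ V : Finset (Fin N),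
      Hered F V C (1 + x) → 4 * C * (m : ℝ) ≤ V.card * Real.sqrt D → Emb H F (hi H D) V := by
  set η : ℝ := (1 / 4 - x) / 2 with hηdef
  have hη : 0 < η := by rw [hηdef]; linarith
  have hη1 : η ≤ 1 := by rw [hηdef]; linarith
  obtain ⟨D₀, hD₀⟩ := params C (1 + x) η hC (by linarith) (by linarith) hη hη1
  refine ⟨max (max D₀ 2) ⌈(128 : ℝ) ^ (1 / (2 * η))⌉₊,
    (le_max_right _ _).trans (le_max_left _ _), ?_⟩
  intro N p m F H hm hm1
  have hm1' : (1 : ℝ) ≤ m := by exact_mod_cast hm1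
  suffices hmain : ∀ k : ℕ, ∀ D : ℕ, m - D = k →
      max (max D₀ 2) ⌈(128 : ℝ) ^ (1 / (2 * η))⌉₊ ≤ D → ∀ V : Finset (Fin N),
      Hered F V C (1 + x) → 4 * C * (m : ℝ) ≤ V.card * Real.sqrt D → Emb H F (hi H D) V by
    intro D hD V hH hV
    exact hmain (m - D) D rfl hD V hH hV
  intro k
  induction k using Nat.strong_induction_on with
  | _ k ih =>
  intro D hk hD V hH hV
  have hDD₀ : D₀ ≤ D := ((le_max_left _ _).trans (le_max_left _ _)).trans hD
  have hD2 : 2 ≤ D := ((le_max_right _ _).trans (le_max_left _ _)).trans hD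
  have hD128 : (128 : ℝ) ≤ (D : ℝ) ^ (2 * η) := by
    have h1 : (128 : ℝ) ^ (1 / (2 * η)) ≤ D :=
      (Nat.le_ceil _).trans (by exact_mod_cast (le_max_right _ _).trans hD)
    calc (128 : ℝ) = ((128 : ℝ) ^ (1 / (2 * η))) ^ (2 * η) := by
          rw [← Real.rpow_mul (by norm_num), one_div_mul_cancel (by positivity), Real.rpow_one]
      _ ≤ (D : ℝ) ^ (2 * η) := Real.rpow_le_rpow (by positivity) h1 (by positivity)
  set q : ℝ := Real.sqrt D with hq
  have hD0 : (0 : ℝ) < D := by positivity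
  have hqq : q ^ 2 = D := Real.sq_sqrt hD0.le
  have hq0 : 0 < q := Real.sqrt_pos.2 hD0
  have hq1 : 1 ≤ q := by
    rw [hq, Real.one_le_sqrt]
    have : (2 : ℝ) ≤ D := by exact_mod_cast hD2
    linarith
  have hVpos : (0 : ℝ) < V.card := by
    by_contra hcon
    have h1 : (V.card : ℝ) * q ≤ 0 := mul_nonpos_of_nonpos_of_nonneg (not_lt.1 hcon) hq0.le
    have h2 : 0 < 4 * C * (m : ℝ) := by positivity
    linarith
  have hVpos' : 0 < V.card := by exact_mod_cast hVpos
  obtain ⟨x0, hx0⟩ := Finset.card_pos.1 hVpos'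
  have : Nonempty (Fin N) := ⟨x0⟩
  have hcard := hi_card H m D hm
  have hq4 : ((D ^ 2 : ℕ) : ℝ) = q ^ (4 : ℝ) := by
    push_cast
    rw [← hqq]
    norm_cast
    ring
  have hq4pow : ∀ y : ℝ, ((D ^ 2 : ℕ) : ℝ) ^ y = q ^ (4 * y) := by
    intro y
    rw [hq4, ← Real.rpow_mul hq0.le]
  by_cases hcase : m ≤ D ^ 3
  · -- independent set
    have hy1 : (m : ℝ) / D ≤ q ^ (4 : ℝ) := by
      rw [← hq4, div_le_iff₀ hD0]
      exact_mod_cast (by simpa [pow_succ] using hcase)
    have hyq : ((m : ℝ) / D) ^ x ≤ q := by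
      calc ((m : ℝ) / D) ^ x ≤ (q ^ (4 : ℝ)) ^ x := Real.rpow_le_rpow (by positivity) hy1 hx.le
        _ = q ^ (4 * x) := by rw [← Real.rpow_mul hq0.le]
        _ ≤ q ^ (1 : ℝ) := Real.rpow_le_rpow_of_exponent_le hq1 (by linarith)
        _ = q := Real.rpow_one q
    have hn : ((hi H D).card : ℝ) ≤ 2 * (m / D) := by
      have h1 : (D : ℝ) * (hi H D).card ≤ 2 * m := by exact_mod_cast hcard
      rw [← mul_div_assoc, le_div_iff₀ hD0]
      linarith
    have hy0 : 0 < (m : ℝ) / D := by positivity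
    have hCn : C * ((hi H D).card : ℝ) ^ (1 + x) ≤ V.card := by
      have h1 : ((hi H D).card : ℝ) ^ (1 + x) ≤ 4 * ((m : ℝ) / D) * q := by
        calc ((hi H D).card : ℝ) ^ (1 + x) ≤ (2 * ((m : ℝ) / D)) ^ (1 + x) :=
              Real.rpow_le_rpow (by positivity) hn (by linarith)
          _ = (2 : ℝ) ^ (1 + x) * (((m : ℝ) / D) ^ (1 : ℝ) * ((m : ℝ) / D) ^ x) := by
              rw [Real.mul_rpow (by norm_num) hy0.le, ← Real.rpow_add hy0]
          _ ≤ (2 : ℝ) ^ (2 : ℝ) * (((m : ℝ) / D) ^ (1 : ℝ) * q) := by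
              apply mul_le_mul
              · exact Real.rpow_le_rpow_of_exponent_le (by norm_num) (by linarith)
              · exact mul_le_mul_of_nonneg_left hyq (by positivity)
              · positivity
              · positivity
          _ = 4 * ((m : ℝ) / D) * q := by
              rw [Real.rpow_one, Real.rpow_two]; ring
      have h2 : C * (4 * ((m : ℝ) / D) * q) * q = 4 * C * m := by
        rw [← hqq]
        field_simp
      have h3 : C * (4 * ((m : ℝ) / D) * q) ≤ V.card := by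
        have h4 : C * (4 * ((m : ℝ) / D) * q) * q ≤ V.card * q := by rw [h2]; exact hV
        exact le_of_mul_le_mul_right h4 hq0
      exact (mul_le_mul_of_nonneg_left h1 (by linarith)).trans h3
    obtain ⟨I, hIV, hIc, hI⟩ := hH _ V (Finset.Subset.refl _) hCn
    exact (indep_emb hI hIc.ge).mono hIV
  · -- sparse set
    push Not at hcase
    have hDD : D ≤ D ^ 2 := by nlinarith
    have hDD' : D < D ^ 2 := by nlinarith
    have hDm : D < m := by
      refine lt_trans ?_ hcase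
      calc D < D ^ 2 := hDD'
        _ ≤ D ^ 3 := Nat.pow_le_pow_right (by omega) (by norm_num)
    obtain ⟨a, s, L, ha, has, hL, hs1, hs2, hs3, hs4, -⟩ := hD₀ (D ^ 2) (hDD₀.trans hDD)
    have ha0 : (0 : ℝ) < a := by exact_mod_cast ha
    have hm3 : q ^ 6 ≤ (m : ℝ) := by
      have h1 : ((D ^ 3 : ℕ) : ℝ) ≤ m := by exact_mod_cast hcase.le
      calc q ^ 6 = (q ^ 2) ^ 3 := by ring
        _ = ((D ^ 3 : ℕ) : ℝ) := by rw [hqq]; push_cast; ring
        _ ≤ m := h1
    have hsV : s ≤ V.card := by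
      have h1 : (s : ℝ) ≤ q ^ 5 := by
        calc (s : ℝ) ≤ ((D ^ 2 : ℕ) : ℝ) ^ (1 + x + η) := hs3
          _ = q ^ (4 * (1 + x + η)) := hq4pow _
          _ ≤ q ^ (5 : ℝ) := by
              apply Real.rpow_le_rpow_of_exponent_le hq1
              rw [hηdef]; linarith
          _ = q ^ 5 := by norm_cast
      have h2 : q ^ 5 * q ≤ V.card * q := by
        calc q ^ 5 * q = q ^ 6 := by ring
          _ ≤ (m : ℝ) := hm3
          _ ≤ 4 * C * (m : ℝ) := by nlinarith
          _ ≤ V.card * q := hV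
      have h3 : (s : ℝ) ≤ V.card := h1.trans (le_of_mul_le_mul_right h2 hq0)
      exact_mod_cast h3
    obtain ⟨U, hUV, hU1, hU2⟩ := five_step F V C (1 + x) hH (D ^ 2) a s L (by positivity) ha has
      hL hs1 hs2 hsV
    have hVU : (V.card : ℝ) ≤ q * U.card := by
      have h1 : (a : ℝ) * V.card ≤ 128 * s * U.card := by exact_mod_cast hU1
      have h2 : (128 : ℝ) * s ≤ a * q := by
        calc (128 : ℝ) * s ≤ (D : ℝ) ^ (2 * η) * (a * ((D ^ 2 : ℕ) : ℝ) ^ (1 + x - 1 + η)) :=
              mul_le_mul hD128 hs4 (by positivity) (by positivity)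
          _ = a * (q ^ (2 * (2 * η)) * q ^ (4 * (1 + x - 1 + η))) := by
              rw [hq4pow, ← hqq, ← Real.rpow_two, ← Real.rpow_mul hq0.le]
              ring
          _ = a * q ^ (1 : ℝ) := by
              rw [← Real.rpow_add hq0]
              congr 2
              rw [hηdef]; ring
          _ = a * q := by rw [Real.rpow_one]
      have h3 : (a : ℝ) * V.card ≤ a * (q * U.card) := by
        calc (a : ℝ) * V.card ≤ 128 * s * U.card := h1
          _ ≤ a * q * U.card := mul_le_mul_of_nonneg_right h2 (by positivity)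
          _ = a * (q * U.card) := by ring
      exact le_of_mul_le_mul_left h3 ha0
    have hsq : Real.sqrt ((D ^ 2 : ℕ) : ℝ) = D := by
      push_cast
      exact Real.sqrt_sq hD0.le
    have hUm : 4 * C * (m : ℝ) ≤ U.card * D := by
      calc 4 * C * (m : ℝ) ≤ V.card * q := hV
        _ ≤ (q * U.card) * q := mul_le_mul_of_nonneg_right hVU hq0.le
        _ = U.card * (q ^ 2) := by ring
        _ = U.card * D := by rw [hqq]
    have hrec : Emb H F (hi H (D ^ 2)) U := by
      refine ih (m - D ^ 2) (by omega) (D ^ 2) rfl (hD.trans hDD) U (hH.mono_set5 hUV) ?_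
      rw [hsq]
      exact hUm
    refine hU2 p H (hi H (D ^ 2)) (hi H D) (hi_mono H hDD) hrec ?_ ?_
    · intro v _ hv
      exact dg_hi H (D ^ 2) _ v hv
    · have h1 : 4 * m ≤ U.card * D := by
        have h2 : 4 * (m : ℝ) ≤ U.card * D := by
          refine le_trans ?_ hUm
          nlinarith
        exact_mod_cast h2
      have h3 : D * (2 * (hi H D).card) ≤ D * U.card := by
        calc D * (2 * (hi H D).card) = 2 * (D * (hi H D).card) := by ring
          _ ≤ 2 * (2 * m) := Nat.mul_le_mul_left _ hcard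
          _ ≤ U.card * D := by omega
          _ = D * U.card := by ring
      exact Nat.le_of_mul_le_mul_left h3 (by omega)

theorem fivefourth (C x : ℝ) (hC : 1 ≤ C) (hx : 0 < x) (hx4 : x < 1 / 4) :
    ∃ B : ℕ, ∀ (p : ℕ) (H : SimpleGraph (Fin p)) (_ : ∀ v, ∃ w, H.Adj v w) (N : ℕ)
      (_ : B * H.edgeSet.ncard ≤ N) (F : SimpleGraph (Fin N)) (_ : Hered F univ C (1 + x))
      (_ : 0 < N), Emb H F univ univ := by
  classical
  set η : ℝ := (1 / 4 - x) / 2 with hηdef
  have hη : 0 < η := by rw [hηdef]; linarith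
  have hη1 : η ≤ 1 := by rw [hηdef]; linarith
  obtain ⟨D₀, hD₀⟩ := params C (1 + x) η hC (by linarith) (by linarith) hη hη1
  obtain ⟨D₁, hD₁, hcl⟩ := five_claim C x hC hx hx4
  set E : ℕ := max D₀ D₁ with hE
  obtain ⟨a, s, L, ha, has, hL, hs1, hs2, hs3, hs4, -⟩ := hD₀ E (le_max_left _ _)
  have hE2 : 2 ≤ E := hD₁.trans (le_max_right _ _)
  refine ⟨s + 128 * s * ⌈4 * C⌉₊, ?_⟩
  intro p H hH N hN F hF hNpos
  have : Nonempty (Fin N) := ⟨⟨0, hNpos⟩⟩
  set m := H.edgeSet.ncard with hm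
  have hp : p ≤ 2 * m := by
    have h1 := card_high H m 1 le_rfl univ (by
      intro v _
      obtain ⟨w, hw⟩ := hH v
      have h2 : w ∈ (univ : Finset (Fin p)).filter (fun y => H.Adj v y) :=
        Finset.mem_filter.2 ⟨Finset.mem_univ _, hw⟩
      have h3 : 0 < ((univ : Finset (Fin p)).filter (fun y => H.Adj v y)).card :=
        Finset.card_pos.2 ⟨w, h2⟩
      have h4 : dg H v univ = ((univ : Finset (Fin p)).filter (fun y => H.Adj v y)).card := by
        unfold dg
        congr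
      omega)
    simpa using h1
  rcases Nat.eq_zero_or_pos m with h0 | hmpos
  · have hI : Indep F (∅ : Finset (Fin N)) := by
      intro a ha
      exact absurd ha (Finset.notMem_empty a)
    refine (indep_emb (W := (univ : Finset (Fin p))) hI ?_).mono (Finset.subset_univ _)
    simp only [Finset.card_univ, Fintype.card_fin, Finset.card_empty]
    omega
  · have hm1 : 1 ≤ m := hmpos
    have hsN : s ≤ (univ : Finset (Fin N)).card := by
      simp only [Finset.card_univ, Fintype.card_fin]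
      refine le_trans ?_ hN
      calc s ≤ s + 128 * s * ⌈4 * C⌉₊ := Nat.le_add_right _ _
        _ ≤ (s + 128 * s * ⌈4 * C⌉₊) * m := Nat.le_mul_of_pos_right _ hmpos
    obtain ⟨U, hUV, hU1, hU2⟩ := five_step F univ C (1 + x) hF E a s L (by omega) ha has
      hL hs1 hs2 hsN
    have hs0 : 0 < s := lt_of_lt_of_le ha has
    have hUm : ⌈4 * C⌉₊ * m ≤ U.card := by
      have h1 : 128 * s * (⌈4 * C⌉₊ * m) ≤ 128 * s * U.card := by
        calc 128 * s * (⌈4 * C⌉₊ * m) = (128 * s * ⌈4 * C⌉₊) * m := by ring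
          _ ≤ (s + 128 * s * ⌈4 * C⌉₊) * m := Nat.mul_le_mul_right _ (Nat.le_add_left _ _)
          _ ≤ N := hN
          _ ≤ a * N := Nat.le_mul_of_pos_left _ ha
          _ ≤ 128 * s * U.card := by simpa using hU1
      exact Nat.le_of_mul_le_mul_left h1 (by positivity)
    have hUm' : 4 * C * (m : ℝ) ≤ U.card := by
      calc 4 * C * (m : ℝ) ≤ (⌈4 * C⌉₊ : ℝ) * m :=
            mul_le_mul_of_nonneg_right (Nat.le_ceil _) (by positivity)
        _ ≤ U.card := by exact_mod_cast hUm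
    have hrec : Emb H F (hi H E) U := by
      refine hcl N p m F H le_rfl hm1 E (le_max_right _ _) U (hF.mono_set5 hUV) ?_
      have h1 : (1 : ℝ) ≤ Real.sqrt E := by
        rw [Real.one_le_sqrt]
        have : (2 : ℝ) ≤ E := by exact_mod_cast hE2
        linarith
      calc 4 * C * (m : ℝ) ≤ U.card := hUm'
        _ ≤ U.card * Real.sqrt E := le_mul_of_one_le_right (by positivity) h1
    refine hU2 p H (hi H E) univ (Finset.subset_univ _) hrec ?_ ?_
    · intro v _ hv
      exact dg_hi H E _ v hv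
    · simp only [Finset.card_univ, Fintype.card_fin]
      have h1 : 4 * m ≤ U.card := by
        have h2 : 4 * (m : ℝ) ≤ U.card := by
          refine le_trans ?_ hUm'
          have : (0 : ℝ) ≤ m := by positivity
          nlinarith
        exact_mod_cast h2
      omega

end Pool.Agent.H89.RSL
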