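import Pool.Agent.H89.RSL.Defs

set_option autoImplicit false

namespace Pool.Agent.H89.RSL

open Finset

variable {β : Type*}

lemma ind_le_choose (Γ : SimpleGraph β) (A : Finset β) (b : ℕ) :
    ind Γ A b ≤ A.card.choose b := by
  classical
  unfold ind
  refine (Finset.card_filter_le _ _).trans ?_
  rw [Finset.card_powersetCard]

lemma ind_rec (Γ : SimpleGraph β) (A : Finset β) (x : β) (hx : x ∈ A) (b : ℕ) :
    ∃ A₁ ⊆ A, ∃ A₂ ⊆ A, A₁.card + 1 = A.card ∧ A₂.card + dg Γ x A + 1 = A.card ∧
      ind Γ A (b + 1) ≤ ind Γ A₁ (b + 1) + ind Γ A₂ b := by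
  classical
  refine ⟨A.erase x, Finset.erase_subset _ _, (A.erase x).filter (fun y => ¬ Γ.Adj x y), ?_, ?_,
    ?_, ?_⟩
  · exact (Finset.filter_subset _ _).trans (Finset.erase_subset _ _)
  · rw [Finset.card_erase_of_mem hx]
    have : 0 < A.card := Finset.card_pos.mpr ⟨x, hx⟩
    omega
  · have h1 : dg Γ x A = ((A.erase x).filter (fun y => Γ.Adj x y)).card := by
      unfold dg
      congr 1
      ext y
      simp only [Finset.mem_filter, Finset.mem_erase]
      constructor
      · rintro ⟨h, h'⟩
        exact ⟨⟨h'.ne', h⟩, h'⟩
      · rintro ⟨⟨_, h⟩, h'⟩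
        exact ⟨h, h'⟩
    have h2 := Finset.card_filter_add_card_filter_not (s := A.erase x) (fun y => Γ.Adj x y)
    rw [Finset.card_erase_of_mem hx] at h2
    have : 0 < A.card := Finset.card_pos.mpr ⟨x, hx⟩
    rw [h1]
    omega
  · unfold ind
    set P := (A.powersetCard (b + 1)).filter (fun I => Indep Γ I) with hP
    have h3 := Finset.card_filter_add_card_filter_not (s := P) (fun I => x ∈ I)
    rw [← h3, add_comm]
    apply add_le_add
    · apply Finset.card_le_card
      intro I hI
      rw [Finset.mem_filter, hP, Finset.mem_filter, Finset.mem_powersetCard] at hI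
      obtain ⟨⟨⟨hIA, hIc⟩, hInd⟩, hxI⟩ := hI
      rw [Finset.mem_filter, Finset.mem_powersetCard]
      refine ⟨⟨?_, hIc⟩, hInd⟩
      intro y hy
      rw [Finset.mem_erase]
      exact ⟨fun h => hxI (h ▸ hy), hIA hy⟩
    · apply Finset.card_le_card_of_injOn (fun I => I.erase x)
      · intro I hI
        rw [Finset.mem_coe, Finset.mem_filter, hP, Finset.mem_filter,
          Finset.mem_powersetCard] at hI
        obtain ⟨⟨⟨hIA, hIc⟩, hInd⟩, hxI⟩ := hI
        rw [Finset.mem_coe, Finset.mem_filter, Finset.mem_powersetCard]
        refine ⟨⟨?_, ?_⟩, ?_⟩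
        · intro y hy
          rw [Finset.mem_erase] at hy
          rw [Finset.mem_filter, Finset.mem_erase]
          exact ⟨⟨hy.1, hIA hy.2⟩, hInd x hxI y hy.2⟩
        · simp only []
          rw [Finset.card_erase_of_mem hxI]
          omega
        · intro y hy z hz
          exact hInd y (Finset.mem_of_mem_erase hy) z (Finset.mem_of_mem_erase hz)
      · intro I hI J hJ hIJ
        rw [Finset.mem_coe, Finset.mem_filter] at hI hJ
        have : insert x (I.erase x) = insert x (J.erase x) := by
          simp only [] at hIJ
          rw [hIJ]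
        rwa [Finset.insert_erase hI.2, Finset.insert_erase hJ.2] at this

theorem kw (Γ : SimpleGraph β) (V : Finset β) (u : ℕ) (θ : ℝ) (h0 : 0 ≤ θ) (h1 : θ ≤ 1)
    (hd : ∀ A ⊆ V, u < A.card → ∃ x ∈ A, θ * A.card ≤ dg Γ x A)
    (T b : ℕ) (A : Finset β) (hA : A ⊆ V) (hT : (A.card : ℝ) * (1 - θ) ^ T ≤ u) :
    ind Γ A b ≤ ∑ t ∈ range (T + 1), A.card.choose t * u.choose (b - t) := by
  induction hn : A.card using Nat.strong_induction_on generalizing A T b with
  | _ n ih =>
    subst hn
    rcases Nat.lt_or_ge u A.card with hu | hu
    · -- the dense case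
      obtain ⟨x, hx, hdx⟩ := hd A hA hu
      rcases T with _ | T
      · exfalso
        rw [pow_zero, mul_one] at hT
        have : A.card ≤ u := by exact_mod_cast hT
        omega
      rcases b with _ | b
      · have : ind Γ A 0 ≤ 1 := by
          have := ind_le_choose Γ A 0
          simpa using this
        refine this.trans ?_
        rw [Finset.sum_range_succ']
        simp
      · obtain ⟨A₁, hA₁, A₂, hA₂, hc1, hc2, hrec⟩ := ind_rec Γ A x hx b
        have e1 := ih A₁.card (by omega) (T + 1) (b + 1) A₁ (hA₁.trans hA) (by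
          refine le_trans ?_ hT
          apply mul_le_mul_of_nonneg_right _ (pow_nonneg (by linarith) _)
          exact_mod_cast (by omega : A₁.card ≤ A.card)) rfl
        have e2 := ih A₂.card (by omega) T b A₂ (hA₂.trans hA) (by
          have h3 : (A₂.card : ℝ) ≤ (1 - θ) * A.card := by
            have h4 : (A₂.card : ℝ) + dg Γ x A + 1 = A.card := by exact_mod_cast hc2
            linarith
          calc (A₂.card : ℝ) * (1 - θ) ^ T ≤ ((1 - θ) * A.card) * (1 - θ) ^ T :=
                mul_le_mul_of_nonneg_right h3 (pow_nonneg (by linarith) _)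
            _ = (A.card : ℝ) * (1 - θ) ^ (T + 1) := by ring
            _ ≤ u := hT) rfl
        refine hrec.trans ((add_le_add e1 e2).trans ?_)
        -- monotonicity and Pascal
        have m1 : A₁.card = A.card - 1 := by omega
        have m2 : A₂.card ≤ A.card - 1 := by omega
        have hpos : A.card = (A.card - 1) + 1 := by omega
        have s2 : ∑ t ∈ range (T + 1), A₂.card.choose t * u.choose (b - t)
            ≤ ∑ t ∈ range (T + 1), (A.card - 1).choose t * u.choose (b - t) := by
          apply Finset.sum_le_sum
          intro t _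
          exact Nat.mul_le_mul_right _ (Nat.choose_le_choose t m2)
        refine (add_le_add_right s2 _).trans ?_
        rw [m1]
        have s3 : ∑ t ∈ range (T + 1 + 1), A.card.choose t * u.choose (b + 1 - t)
            = ∑ t ∈ range (T + 1), A.card.choose (t + 1) * u.choose (b + 1 - (t + 1))
              + A.card.choose 0 * u.choose (b + 1 - 0) := by
          rw [Finset.sum_range_succ']
        have s4 : ∑ t ∈ range (T + 1 + 1), (A.card - 1).choose t * u.choose (b + 1 - t)
            = ∑ t ∈ range (T + 1), (A.card - 1).choose (t + 1) * u.choose (b + 1 - (t + 1))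
              + (A.card - 1).choose 0 * u.choose (b + 1 - 0) := by
          rw [Finset.sum_range_succ']
        rw [s3, s4]
        have s5 : ∀ t, A.card.choose (t + 1) * u.choose (b + 1 - (t + 1))
            = (A.card - 1).choose (t + 1) * u.choose (b + 1 - (t + 1))
              + (A.card - 1).choose t * u.choose (b - t) := by
          intro t
          rw [hpos, Nat.choose_succ_succ, Nat.add_sub_add_right]
          simp only [Nat.add_sub_cancel]
          ring
        simp_rw [s5]
        rw [Finset.sum_add_distrib]
        simp only [Nat.choose_zero_right]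
        omega
    · -- the small case
      refine (ind_le_choose Γ A b).trans ?_
      rw [Finset.sum_range_succ']
      simp only [Nat.choose_zero_right, one_mul, Nat.sub_zero]
      exact (Nat.choose_le_choose b hu).trans (Nat.le_add_left _ _)

end Pool.Agent.H89.RSL
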