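import Pool.Agent.H89.RSL.Sparse
import Pool.Agent.H89.RSL.Ext

set_option autoImplicit false

namespace Pool.Agent.H89.RSL

open Finset

/-- from the sparse set to an embedding of a degenerate graph -/
theorem degenerate_core {p N : ℕ} [Nonempty (Fin N)] (H : SimpleGraph (Fin p))
    (F : SimpleGraph (Fin N)) (W : Finset (Fin p)) (V : Finset (Fin N)) (a s L d : ℕ) (ha : 0 < a)
    (has : a ≤ s) (hs : s ≤ V.card) (hL : 6 * s ≤ 2 ^ L * a)
    (h : ∀ S ⊆ V, S.card = s → ∃ I ⊆ S, I.card = a ∧ Indep F I)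
    (had : 4 * d * (L + 1) * (L + 5) ≤ a)
    (hd : ∀ S ⊆ W, S.Nonempty → ∃ v ∈ S, dg H v S ≤ d)
    (hN : 256 * s * W.card ≤ a * V.card) : Emb H F W V := by
  obtain ⟨U, hUV, hU, hdg⟩ := sparse_set F V a s L ha has hs hL h
  set Δ := 2 * (L + 1) * (L + 5) * U.card / a with hΔ
  have hs0 : 0 < s := lt_of_lt_of_le ha has
  have h1 : ∀ y ∈ U, dg F y U ≤ Δ := by
    intro y hy
    rw [hΔ, Nat.le_div_iff_mul_le ha, mul_comm]
    exact hdg y hy
  have h2 : 2 * (d * Δ) ≤ U.card := by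
    have h3 : a * Δ ≤ 2 * (L + 1) * (L + 5) * U.card := Nat.mul_div_le _ _
    have h4 : a * (2 * (d * Δ)) ≤ a * U.card := by
      calc a * (2 * (d * Δ)) = 2 * d * (a * Δ) := by ring
        _ ≤ 2 * d * (2 * (L + 1) * (L + 5) * U.card) := Nat.mul_le_mul_left _ h3
        _ = (4 * d * (L + 1) * (L + 5)) * U.card := by ring
        _ ≤ a * U.card := Nat.mul_le_mul_right _ had
    exact le_of_mul_le_mul_left h4 ha
  have h5 : 2 * W.card ≤ U.card := by
    have h6 : 128 * s * (2 * W.card) ≤ 128 * s * U.card := by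
      calc 128 * s * (2 * W.card) = 256 * s * W.card := by ring
        _ ≤ a * V.card := hN
        _ ≤ 128 * s * U.card := hU
    exact le_of_mul_le_mul_left h6 (by omega)
  exact (deg_emb d Δ hd h1 (by omega)).mono hUV

lemma exists_c (c0 : ℕ) : ∃ c : ℕ, 288 * c0 * (3 + c) ^ 2 ≤ 2 ^ c := by
  have h : Filter.Tendsto (fun n : ℕ => ((n : ℝ)) ^ 2 / (2 : ℝ) ^ n) Filter.atTop (nhds 0) :=
    tendsto_pow_const_div_const_pow_of_one_lt 2 (by norm_num)
  have h2 : ∀ᶠ n : ℕ in Filter.atTop, ((n : ℝ)) ^ 2 / (2 : ℝ) ^ n < 1 / (2304 * c0 + 1) := by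
    apply h.eventually_lt_const
    positivity
  obtain ⟨n, hn, hn3⟩ := (h2.and (Filter.eventually_ge_atTop 3)).exists
  refine ⟨n - 3, ?_⟩
  have e1 : 3 + (n - 3) = n := by omega
  rw [e1]
  have e2 : (2 : ℝ) ^ n = 8 * 2 ^ (n - 3) := by
    have : n = 3 + (n - 3) := by omega
    conv_lhs => rw [this]
    rw [pow_add]
    norm_num
  rw [div_lt_div_iff₀ (by positivity) (by positivity), one_mul] at hn
  have e3 : (2304 * (c0 : ℝ)) * n ^ 2 ≤ 8 * 2 ^ (n - 3) := by
    rw [← e2]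
    nlinarith [sq_nonneg (n : ℝ)]
  have e4 : (288 * (c0 : ℝ)) * n ^ 2 ≤ 2 ^ (n - 3) := by linarith
  exact_mod_cast e4

lemma natlog_le (d : ℕ) (hd : 2 ≤ d) : ((Nat.log 2 d + 1 : ℕ) : ℝ) ≤ 3 * Real.log d := by
  have hd0 : (0 : ℝ) < d := by positivity
  have h1 : ((2 : ℝ)) ^ (Nat.log 2 d) ≤ d := by
    exact_mod_cast Nat.pow_log_le_self 2 (by omega : d ≠ 0)
  have h2 : (Nat.log 2 d : ℝ) * Real.log 2 ≤ Real.log d := by
    rw [← Real.log_pow]
    exact Real.log_le_log (by positivity) h1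
  have h3 : Real.log 2 ≤ Real.log d := Real.log_le_log (by norm_num) (by exact_mod_cast hd)
  have h4 := Real.log_two_gt_d9
  push_cast
  have h5 : ((Nat.log 2 d : ℝ) + 1) * Real.log 2 ≤ 2 * Real.log d := by linarith
  have h6 : (0 : ℝ) ≤ (Nat.log 2 d : ℝ) + 1 := by positivity
  nlinarith

theorem t1_main {k : ℕ} (G : SimpleGraph (Fin k)) (C₀ : ℕ)
    (hR : ∀ n N : ℕ, C₀ * n ^ 2 ≤ N → ∀ F : SimpleGraph (Fin N),
      G.IsContained F ∨ (⊤ : SimpleGraph (Fin n)).IsContained Fᶜ) :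
    ∃ C : ℝ, ∀ (d p : ℕ) (H : SimpleGraph (Fin p)), 2 ≤ d →
      (∀ S : Finset (Fin p), S.Nonempty → ∃ v ∈ S, dg H v S ≤ d) →
      ∀ N : ℕ, C * p * d * (Real.log d) ^ 2 ≤ N → ∀ F : SimpleGraph (Fin N),
        G.IsContained F ∨ H.IsContained Fᶜ := by
  classical
  set c0 := max C₀ 1 with hc0
  have hc01 : 1 ≤ c0 := le_max_right _ _
  have hC0 : C₀ ≤ c0 := le_max_left _ _
  obtain ⟨c, hc⟩ := exists_c c0
  set B := 3 + c with hB
  refine ⟨256 * 9 * c0 * (48 * B ^ 2), ?_⟩
  intro d p H hd hdeg N hN F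
  by_cases hG : G.IsContained F
  · exact Or.inl hG
  right
  apply contained_of_emb
  rcases Nat.eq_zero_or_pos p with rfl | hp
  · exact ⟨Fin.elim0, fun a => a.elim0, fun a => a.elim0, fun a => a.elim0⟩
  -- parameters
  set l := Nat.log 2 d + 1 with hl
  have hl1 : 1 ≤ l := by omega
  set a := 48 * B ^ 2 * d * l ^ 2 with ha
  set L := B * l with hL
  set s := c0 * a ^ 2 with hs
  have hB1 : 1 ≤ B := by omega
  have hL1 : 1 ≤ L := Nat.mul_pos hB1 hl1
  have ha0 : 0 < a := by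
    rw [ha]; positivity
  have hNR : (256 * c0 * a * p : ℝ) ≤ N := by
    refine le_trans ?_ hN
    have h1 := natlog_le d hd
    rw [← hl] at h1
    have h2 : (l : ℝ) ^ 2 ≤ 9 * (Real.log d) ^ 2 := by
      have h0 : (0 : ℝ) ≤ l := by positivity
      nlinarith
    have e : (a : ℝ) = 48 * B ^ 2 * d * l ^ 2 := by rw [ha]; push_cast; ring
    rw [e]
    have h3 : (0 : ℝ) ≤ 256 * c0 * (48 * B ^ 2) * d * p := by positivity
    nlinarith [mul_le_mul_of_nonneg_left h2 h3]
  have hN1 : 256 * c0 * a * p ≤ N := by exact_mod_cast hNR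
  have hNpos : 0 < N := by
    refine lt_of_lt_of_le ?_ hN1
    positivity
  haveI : Nonempty (Fin N) := ⟨⟨0, hNpos⟩⟩
  have hher : ∀ n : ℕ, ∀ S : Finset (Fin N), c0 * n ^ 2 ≤ S.card → ∃ I ⊆ S, I.card = n ∧
      Indep F I := by
    have h1 := hered_of_ramsey G (c0 : ℝ) 2 (by
      intro n M hM F'
      apply hR n M _ F'
      have h2 : c0 * n ^ 2 ≤ M := by
        have : ((c0 * n ^ 2 : ℕ) : ℝ) ≤ M := by
          push_cast
          convert hM using 2
          norm_cast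
        exact_mod_cast this
      exact (Nat.mul_le_mul_right _ hC0).trans h2) F hG
    intro n S hS
    apply h1 n S (Finset.subset_univ _)
    have : ((c0 * n ^ 2 : ℕ) : ℝ) ≤ S.card := by exact_mod_cast hS
    push_cast at this
    convert this using 2
    norm_cast
  rcases Nat.lt_or_ge p a with hpa | hpa
  · -- few vertices: independent set
    obtain ⟨I, -, hIc, hI⟩ := hher p univ (by
      rw [Finset.card_univ, Fintype.card_fin]
      calc c0 * p ^ 2 = c0 * p * p := by ring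
        _ ≤ c0 * a * p := Nat.mul_le_mul_right _ (Nat.mul_le_mul_left _ hpa.le)
        _ ≤ 256 * c0 * a * p := by nlinarith [Nat.zero_le (c0 * a * p)]
        _ ≤ N := hN1)
    exact (indep_emb hI (by rw [Finset.card_univ, Fintype.card_fin, hIc])).mono
      (Finset.subset_univ _)
  · -- the main case
    have hsN : s ≤ N := by
      calc s = c0 * a * a := by rw [hs]; ring
        _ ≤ c0 * a * p := Nat.mul_le_mul_left _ hpa
        _ ≤ 256 * c0 * a * p := by nlinarith [Nat.zero_le (c0 * a * p)]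
        _ ≤ N := hN1
    have has : a ≤ s := by
      rw [hs]
      calc a = 1 * (a * 1) := by ring
        _ ≤ c0 * (a * a) := Nat.mul_le_mul hc01 (Nat.mul_le_mul_left _ ha0)
        _ = c0 * a ^ 2 := by ring
    have hL6 : 6 * s ≤ 2 ^ L * a := by
      have h1 : d ≤ 2 ^ l := (Nat.lt_pow_succ_log_self (by norm_num) d).le
      have h2 : l ≤ 2 ^ l := Nat.lt_two_pow_self.le
      have h3 : 6 * c0 * a ≤ 2 ^ L := by
        calc 6 * c0 * a = (288 * c0 * B ^ 2) * (d * (l * l)) := by rw [ha]; ring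
          _ ≤ 2 ^ c * (2 ^ l * (2 ^ l * 2 ^ l)) :=
              Nat.mul_le_mul hc (Nat.mul_le_mul h1 (Nat.mul_le_mul h2 h2))
          _ = 2 ^ (c + (l + (l + l))) := by clear_value l; ring
          _ ≤ 2 ^ L := by
              apply Nat.pow_le_pow_right (by norm_num)
              rw [hL, hB]
              nlinarith [Nat.zero_le c]
      calc 6 * s = (6 * c0 * a) * a := by rw [hs]; ring
        _ ≤ 2 ^ L * a := Nat.mul_le_mul_right _ h3
    have had : 4 * d * (L + 1) * (L + 5) ≤ a := by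
      calc 4 * d * (L + 1) * (L + 5) ≤ 4 * d * (2 * L) * (6 * L) :=
            Nat.mul_le_mul (Nat.mul_le_mul_left _ (by omega)) (by omega)
        _ = a := by rw [ha, hL]; ring
    apply degenerate_core H F univ univ a s L d ha0 has (by simpa using hsN) hL6 ?_ had
      (fun S _ hS => hdeg S hS) ?_
    · intro S _ hS
      exact hher a S (by rw [hS])
    · rw [Finset.card_univ, Finset.card_univ, Fintype.card_fin, Fintype.card_fin]
      calc 256 * s * p = a * (256 * c0 * a * p) := by rw [hs]; ring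
        _ ≤ a * N := Nat.mul_le_mul_left _ hN1

end Pool.Agent.H89.RSL
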