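import Pool.Agent.H89.RSL.T1

set_option autoImplicit false

namespace Pool.Agent.H89.RSL

open Finset

lemma exists_c_gen (c1 E : ℕ) : ∃ c : ℕ, 12 * c1 * (48 * (3 * E + c) ^ 2) ^ E ≤ 2 ^ c := by
  have h : Filter.Tendsto (fun n : ℕ => ((n : ℝ)) ^ (2 * E) / (2 : ℝ) ^ n) Filter.atTop (nhds 0) :=
    tendsto_pow_const_div_const_pow_of_one_lt (2 * E) (by norm_num)
  have h2 : ∀ᶠ n : ℕ in Filter.atTop,
      ((n : ℝ)) ^ (2 * E) / (2 : ℝ) ^ n < 1 / (12 * c1 * 48 ^ E * 8 ^ E + 1) := by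
    apply h.eventually_lt_const
    positivity
  obtain ⟨n, hn, hn3⟩ := (h2.and (Filter.eventually_ge_atTop (3 * E))).exists
  refine ⟨n - 3 * E, ?_⟩
  have e1 : 3 * E + (n - 3 * E) = n := by omega
  rw [e1]
  have e2 : (2 : ℝ) ^ n = 8 ^ E * 2 ^ (n - 3 * E) := by
    have : n = 3 * E + (n - 3 * E) := by omega
    conv_lhs => rw [this]
    rw [pow_add, pow_mul]
    norm_num
  rw [div_lt_div_iff₀ (by positivity) (by positivity), one_mul] at hn
  have e3 : (12 * (c1 : ℝ) * 48 ^ E * 8 ^ E) * n ^ (2 * E) ≤ 8 ^ E * 2 ^ (n - 3 * E) := by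
    rw [← e2]
    have : (0 : ℝ) ≤ (n : ℝ) ^ (2 * E) := by positivity
    nlinarith
  have e4 : (12 * (c1 : ℝ) * 48 ^ E) * n ^ (2 * E) ≤ 2 ^ (n - 3 * E) := by
    have h8 : (0 : ℝ) < 8 ^ E := by positivity
    have : (8 : ℝ) ^ E * ((12 * (c1 : ℝ) * 48 ^ E) * n ^ (2 * E)) ≤ 8 ^ E * 2 ^ (n - 3 * E) := by
      calc _ = (12 * (c1 : ℝ) * 48 ^ E * 8 ^ E) * n ^ (2 * E) := by ring
        _ ≤ _ := e3
    exact le_of_mul_le_mul_left this h8
  have e5 : 12 * c1 * (48 * n ^ 2) ^ E = 12 * c1 * 48 ^ E * n ^ (2 * E) := by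
    rw [mul_pow, ← pow_mul]; ring
  rw [e5]
  exact_mod_cast e4

theorem t1_gen {k : ℕ} (G : SimpleGraph (Fin k)) (e : ℝ) (he : 1 < e) (C₀ : ℝ)
    (hR : ∀ n N : ℕ, C₀ * (n : ℝ) ^ e ≤ N → ∀ F : SimpleGraph (Fin N),
      G.IsContained F ∨ (⊤ : SimpleGraph (Fin n)).IsContained Fᶜ) :
    ∃ C : ℝ, ∀ (d p : ℕ) (H : SimpleGraph (Fin p)), 2 ≤ d →
      (∀ S : Finset (Fin p), S.Nonempty → ∃ v ∈ S, dg H v S ≤ d) →
      ∀ N : ℕ, C * p * ((d : ℝ) * (Real.log d) ^ 2) ^ (e - 1) ≤ N → ∀ F : SimpleGraph (Fin N),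
        G.IsContained F ∨ H.IsContained Fᶜ := by
  classical
  set c1 : ℕ := max ⌈C₀⌉₊ 1 with hc1
  have hc11 : 1 ≤ c1 := le_max_right _ _
  have hC0 : C₀ ≤ c1 := (Nat.le_ceil _).trans (by exact_mod_cast le_max_left _ _)
  have hc1R : (1 : ℝ) ≤ c1 := by exact_mod_cast hc11
  set E : ℕ := ⌈e⌉₊ with hE
  have heE : e ≤ E := Nat.le_ceil _
  obtain ⟨c, hc⟩ := exists_c_gen c1 E
  set B := 3 * E + c with hB
  have hE1 : 1 ≤ E := by
    have : (1 : ℝ) < E := lt_of_lt_of_le he heE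
    exact_mod_cast this.le
  have hB1 : 1 ≤ B := by omega
  refine ⟨512 * c1 * (432 * (B : ℝ) ^ 2) ^ (e - 1), ?_⟩
  intro d p H hd hdeg N hN F
  by_cases hG : G.IsContained F
  · exact Or.inl hG
  right
  apply contained_of_emb
  rcases Nat.eq_zero_or_pos p with rfl | hp
  · exact ⟨Fin.elim0, fun a => a.elim0, fun a => a.elim0, fun a => a.elim0⟩
  set l := Nat.log 2 d + 1 with hl
  have hl1 : 1 ≤ l := by omega
  set a := 48 * B ^ 2 * d * l ^ 2 with ha
  set L := B * l with hL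
  set s := ⌈(c1 : ℝ) * (a : ℝ) ^ e⌉₊ with hs
  have hL1 : 1 ≤ L := Nat.mul_pos hB1 hl1
  have ha0 : 0 < a := by
    rw [ha]; positivity
  have haR : (1 : ℝ) ≤ a := by exact_mod_cast ha0
  have hpR : (1 : ℝ) ≤ p := by exact_mod_cast hp
  have hae : (a : ℝ) ^ e = (a : ℝ) ^ (e - 1) * a := by
    rw [← Real.rpow_add_one (by positivity)]
    congr 1
    ring
  have hae1 : (1 : ℝ) ≤ (a : ℝ) ^ (e - 1) := Real.one_le_rpow haR (by linarith)
  have hae2 : (1 : ℝ) ≤ (a : ℝ) ^ e := Real.one_le_rpow haR (by linarith)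
  have hs1 : (c1 : ℝ) * (a : ℝ) ^ e ≤ s := Nat.le_ceil _
  have hs2 : (s : ℝ) ≤ 2 * c1 * (a : ℝ) ^ e := by
    have h1 := (Nat.ceil_lt_add_one (by positivity : 0 ≤ (c1 : ℝ) * (a : ℝ) ^ e)).le
    rw [← hs] at h1
    have h2 : (1 : ℝ) ≤ c1 * (a : ℝ) ^ e := by nlinarith
    linarith
  -- the bound on N
  have hNR : 512 * c1 * (a : ℝ) ^ (e - 1) * p ≤ N := by
    refine le_trans ?_ hN
    have h1 := natlog_le d hd
    rw [← hl] at h1
    have h2 : (l : ℝ) ^ 2 ≤ 9 * (Real.log d) ^ 2 := by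
      have h0 : (0 : ℝ) ≤ l := by positivity
      nlinarith
    have e1 : (a : ℝ) ≤ (432 * (B : ℝ) ^ 2) * ((d : ℝ) * (Real.log d) ^ 2) := by
      rw [ha]
      push_cast
      have h3 : (0 : ℝ) ≤ 48 * B ^ 2 * d := by positivity
      nlinarith [mul_le_mul_of_nonneg_left h2 h3]
    have e2 : (a : ℝ) ^ (e - 1) ≤
        (432 * (B : ℝ) ^ 2) ^ (e - 1) * ((d : ℝ) * (Real.log d) ^ 2) ^ (e - 1) := by
      rw [← Real.mul_rpow (by positivity) (by positivity)]
      exact Real.rpow_le_rpow (by positivity) e1 (by linarith)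
    have h3 : (0 : ℝ) ≤ 512 * c1 * p := by positivity
    nlinarith [mul_le_mul_of_nonneg_left e2 h3]
  have hNpos : 0 < N := by
    have : (0 : ℝ) < 512 * c1 * (a : ℝ) ^ (e - 1) * p := by positivity
    exact_mod_cast lt_of_lt_of_le this hNR
  haveI : Nonempty (Fin N) := ⟨⟨0, hNpos⟩⟩
  have hher : Hered F univ (c1 : ℝ) e := by
    apply hered_of_ramsey G (c1 : ℝ) e _ F hG
    intro n M hM F'
    apply hR n M _ F'
    exact (mul_le_mul_of_nonneg_right hC0 (by positivity)).trans hM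
  have hX : (0 : ℝ) < c1 * (a : ℝ) ^ (e - 1) * p := by positivity
  rcases Nat.lt_or_ge p a with hpa | hpa
  · -- few vertices
    have hpa' : (p : ℝ) ≤ a := by exact_mod_cast hpa.le
    obtain ⟨I, -, hIc, hI⟩ := hher p univ (Finset.Subset.refl _) (by
      rw [Finset.card_univ, Fintype.card_fin]
      have h1 : (p : ℝ) ^ e = (p : ℝ) ^ (e - 1) * p := by
        rw [← Real.rpow_add_one (by positivity)]
        congr 1
        ring
      have h2 : (p : ℝ) ^ (e - 1) ≤ (a : ℝ) ^ (e - 1) :=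
        Real.rpow_le_rpow (by positivity) hpa' (by linarith)
      rw [h1]
      calc (c1 : ℝ) * ((p : ℝ) ^ (e - 1) * p) ≤ c1 * ((a : ℝ) ^ (e - 1) * p) := by gcongr
        _ ≤ 512 * c1 * (a : ℝ) ^ (e - 1) * p := by nlinarith
        _ ≤ N := hNR)
    exact (indep_emb hI (by rw [Finset.card_univ, Fintype.card_fin, hIc])).mono
      (Finset.subset_univ _)
  · -- the main case
    have hpa' : (a : ℝ) ≤ p := by exact_mod_cast hpa
    have hsN : s ≤ N := by
      have : (s : ℝ) ≤ N := by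
        calc (s : ℝ) ≤ 2 * c1 * ((a : ℝ) ^ (e - 1) * a) := by rw [← hae]; exact hs2
          _ ≤ 2 * c1 * ((a : ℝ) ^ (e - 1) * p) := by gcongr
          _ ≤ 512 * c1 * (a : ℝ) ^ (e - 1) * p := by nlinarith
          _ ≤ N := hNR
      exact_mod_cast this
    have has : a ≤ s := by
      have : (a : ℝ) ≤ s := by
        refine le_trans ?_ hs1
        rw [hae]
        have h1 : (1 : ℝ) ≤ c1 * (a : ℝ) ^ (e - 1) := by nlinarith
        nlinarith
      exact_mod_cast this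
    have hL6 : 6 * s ≤ 2 ^ L * a := by
      have h1 : d ≤ 2 ^ l := (Nat.lt_pow_succ_log_self (by norm_num) d).le
      have h2 : l ≤ 2 ^ l := Nat.lt_two_pow_self.le
      have h3 : 12 * c1 * a ^ E ≤ 2 ^ L := by
        calc 12 * c1 * a ^ E = (12 * c1 * (48 * B ^ 2) ^ E) * (d * (l * l)) ^ E := by
              rw [ha, show 48 * B ^ 2 * d * l ^ 2 = (48 * B ^ 2) * (d * (l * l)) by ring,
                mul_pow (48 * B ^ 2)]
              ring
          _ ≤ 2 ^ c * (2 ^ l * (2 ^ l * 2 ^ l)) ^ E :=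
              Nat.mul_le_mul hc (Nat.pow_le_pow_left
                (Nat.mul_le_mul h1 (Nat.mul_le_mul h2 h2)) E)
          _ = 2 ^ (c + 3 * l * E) := by
              clear_value l
              rw [← pow_add, ← pow_add, ← pow_mul, ← pow_add]
              congr 1
              ring
          _ ≤ 2 ^ L := by
              apply Nat.pow_le_pow_right (by norm_num)
              rw [hL, hB]
              nlinarith [Nat.zero_le c]
      have h4 : (a : ℝ) ^ (e - 1) ≤ (a : ℝ) ^ E := by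
        rw [← Real.rpow_natCast]
        exact Real.rpow_le_rpow_of_exponent_le haR (by linarith)
      have h5 : (12 * c1 * (a : ℝ) ^ E) ≤ 2 ^ L := by exact_mod_cast h3
      have h6 : (6 * s : ℝ) ≤ 2 ^ L * a := by
        calc (6 * s : ℝ) ≤ 6 * (2 * c1 * ((a : ℝ) ^ (e - 1) * a)) := by
              rw [← hae]; linarith
          _ = (12 * c1 * (a : ℝ) ^ (e - 1)) * a := by ring
          _ ≤ (12 * c1 * (a : ℝ) ^ E) * a := by gcongr
          _ ≤ 2 ^ L * a := by gcongr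
      exact_mod_cast h6
    have had : 4 * d * (L + 1) * (L + 5) ≤ a := by
      calc 4 * d * (L + 1) * (L + 5) ≤ 4 * d * (2 * L) * (6 * L) :=
            Nat.mul_le_mul (Nat.mul_le_mul_left _ (by omega)) (by omega)
        _ = a := by rw [ha, hL]; ring
    apply degenerate_core H F univ univ a s L d ha0 has (by simpa using hsN) hL6 ?_ had
      (fun S _ hS => hdeg S hS) ?_
    · intro S hSu hS
      exact hher a S hSu (by rw [hS]; exact hs1)
    · rw [Finset.card_univ, Finset.card_univ, Fintype.card_fin, Fintype.card_fin]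
      have h1 : (256 * s * p : ℝ) ≤ a * N := by
        calc (256 * s * p : ℝ) ≤ 256 * (2 * c1 * ((a : ℝ) ^ (e - 1) * a)) * p := by
              rw [← hae]; gcongr
          _ = a * (512 * c1 * (a : ℝ) ^ (e - 1) * p) := by ring
          _ ≤ a * N := by gcongr
      exact_mod_cast h1

end Pool.Agent.H89.RSL
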